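import Mathlib

/-!
# Positive density along the powers of almost every real number (helper6), part 1: one cell

`fx ξ e α = ξ α ^ e`. On a short interval of `α` the values `⌊ξ α ^ e⌋` run through a window of integers, with
multiplicities (lengths of the level sets) which are nearly constant.
-/

set_option autoImplicit false

namespace Pool.Agent.L7h6.PL

open MeasureTheory Set Finset

/-- the number `ξ α ^ e` -/
noncomputable def fx (ξ e α : ℝ) : ℝ := ξ * α ^ e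

lemma fx_lower {ξ e u x y : ℝ} (hξ : 0 < ξ) (he : 1 ≤ e) (hu : 0 < u) (hux : u ≤ x) (hxy : x ≤ y) :
    ξ * (e * u ^ (e - 1)) * (y - x) ≤ fx ξ e y - fx ξ e x := by
  have hx : 0 < x := hu.trans_le hux
  have hy : 0 < y := hx.trans_le hxy
  have h1 : 1 + e * ((y - x) / x) ≤ (1 + (y - x) / x) ^ e :=
    one_add_mul_self_le_rpow_one_add (by
      have : 0 ≤ (y - x) / x := div_nonneg (by linarith) hx.le
      linarith) he
  have h2 : 1 + (y - x) / x = y / x := by field_simp; ring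
  rw [h2, Real.div_rpow hy.le hx.le] at h1
  have hxe : 0 < x ^ e := Real.rpow_pos_of_pos hx e
  rw [le_div_iff₀ hxe] at h1
  have h3 : x ^ e = x ^ (e - 1) * x := by
    rw [← Real.rpow_add_one hx.ne']
    ring_nf
  have h4 : (1 + e * ((y - x) / x)) * x ^ e = x ^ e + e * x ^ (e - 1) * (y - x) := by
    rw [h3]
    field_simp
  rw [h4] at h1
  have h5 : u ^ (e - 1) ≤ x ^ (e - 1) := Real.rpow_le_rpow hu.le hux (by linarith)
  unfold fx
  have h6 : e * u ^ (e - 1) * (y - x) ≤ e * x ^ (e - 1) * (y - x) :=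
    mul_le_mul_of_nonneg_right (mul_le_mul_of_nonneg_left h5 (by linarith)) (by linarith)
  nlinarith

lemma fx_upper {ξ e v x y : ℝ} (hξ : 0 < ξ) (he : 1 ≤ e) (hx : 0 < x) (hxy : x ≤ y) (hyv : y ≤ v) :
    fx ξ e y - fx ξ e x ≤ ξ * (e * v ^ (e - 1)) * (y - x) := by
  have hy : 0 < y := hx.trans_le hxy
  have h0 : -1 ≤ (x - y) / y := by
    rw [le_div_iff₀ hy]
    linarith
  have h1 : 1 + e * ((x - y) / y) ≤ (1 + (x - y) / y) ^ e := one_add_mul_self_le_rpow_one_add h0 he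
  have h2 : 1 + (x - y) / y = x / y := by field_simp; ring
  rw [h2, Real.div_rpow hx.le hy.le] at h1
  have hye : 0 < y ^ e := Real.rpow_pos_of_pos hy e
  rw [le_div_iff₀ hye] at h1
  have h3 : y ^ e = y ^ (e - 1) * y := by
    rw [← Real.rpow_add_one hy.ne']
    ring_nf
  have h4 : (1 + e * ((x - y) / y)) * y ^ e = y ^ e + e * y ^ (e - 1) * (x - y) := by
    rw [h3]
    field_simp
  rw [h4] at h1
  have h5 : y ^ (e - 1) ≤ v ^ (e - 1) := Real.rpow_le_rpow hy.le hyv (by linarith)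
  unfold fx
  have h6 : e * y ^ (e - 1) * (y - x) ≤ e * v ^ (e - 1) * (y - x) :=
    mul_le_mul_of_nonneg_right (mul_le_mul_of_nonneg_left h5 (by linarith)) (by linarith)
  nlinarith

lemma fx_mono {ξ e x y : ℝ} (hξ : 0 < ξ) (he : 0 ≤ e) (hx : 0 ≤ x) (hxy : x ≤ y) : fx ξ e x ≤ fx ξ e y :=
  mul_le_mul_of_nonneg_left (Real.rpow_le_rpow hx hxy he) hξ.le

lemma fx_nonneg {ξ e x : ℝ} (hξ : 0 < ξ) (hx : 0 ≤ x) : 0 ≤ fx ξ e x :=
  mul_nonneg hξ.le (Real.rpow_nonneg hx e)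

lemma fx_measurable (ξ e : ℝ) : Measurable (fx ξ e) := by
  unfold fx
  fun_prop

/-- the set of the `α` with `⌊ξ α ^ e⌋ ∈ P` -/
def AA (ξ e : ℝ) (P : Set ℕ) : Set ℝ := {α | ⌊fx ξ e α⌋₊ ∈ P}

lemma AA_measurable (ξ e : ℝ) (P : Set ℕ) : MeasurableSet (AA ξ e P) :=
  (Nat.measurable_floor.comp (fx_measurable ξ e)) (MeasurableSet.of_discrete (s := P))

/-- level sets are short -/
lemma level {ξ e u v : ℝ} (hξ : 0 < ξ) (he : 1 ≤ e) (hu : 0 < u) (m : ℕ) :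
    volume (Ioc u v ∩ {α | ⌊fx ξ e α⌋₊ = m}) ≤ ENNReal.ofReal (1 / (ξ * (e * u ^ (e - 1)))) := by
  refine (Real.volume_le_diam _).trans (Metric.ediam_le ?_)
  have hD : 0 < ξ * (e * u ^ (e - 1)) := mul_pos hξ (mul_pos (by linarith) (Real.rpow_pos_of_pos hu _))
  have key : ∀ x y : ℝ, u < x → x ≤ y → ⌊fx ξ e x⌋₊ = m → ⌊fx ξ e y⌋₊ = m →
      y - x ≤ 1 / (ξ * (e * u ^ (e - 1))) := by
    intro x y hx hxy h1 h2
    have h3 := fx_lower hξ he hu hx.le hxy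
    have h4 : (m : ℝ) ≤ fx ξ e x := by
      rw [← h1]
      exact Nat.floor_le (fx_nonneg hξ (hu.le.trans hx.le))
    have h5 : fx ξ e y < m + 1 := by
      rw [← h2]
      exact Nat.lt_floor_add_one _
    rw [le_div_iff₀ hD]
    nlinarith
  rintro x ⟨hx1, hx2⟩ y ⟨hy1, hy2⟩
  rw [edist_dist, Real.dist_eq]
  apply ENNReal.ofReal_le_ofReal
  rcases le_total x y with h | h
  · rw [abs_sub_comm, abs_of_nonneg (by linarith)]
    exact key x y hx1.1 h hx2 hy2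
  · rw [abs_of_nonneg (by linarith)]
    exact key y x hy1.1 h hy2 hx2

open Classical in
/-- the measure of `AA` in a cell -/
lemma cell {ξ e u v : ℝ} (hξ : 0 < ξ) (he : 1 ≤ e) (hu : 0 < u) (P : Set ℕ) (X Y : ℕ)
    (hX : X < ⌊fx ξ e u⌋₊) (hY : ⌊fx ξ e v⌋₊ ≤ X + Y) :
    volume.real (Ioc u v ∩ AA ξ e P) ≤
      (#{m ∈ Finset.Ioc X (X + Y) | m ∈ P} : ℝ) * (1 / (ξ * (e * u ^ (e - 1)))) := by
  have hD : 0 < ξ * (e * u ^ (e - 1)) := mul_pos hξ (mul_pos (by linarith) (Real.rpow_pos_of_pos hu _))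
  have hsub : Ioc u v ∩ AA ξ e P ⊆ ⋃ m ∈ ({m ∈ Finset.Ioc X (X + Y) | m ∈ P} : Finset ℕ),
      (Ioc u v ∩ {α | ⌊fx ξ e α⌋₊ = m}) := by
    rintro α ⟨h1, h2⟩
    rw [mem_iUnion₂]
    refine ⟨⌊fx ξ e α⌋₊, ?_, h1, rfl⟩
    rw [Finset.mem_filter, Finset.mem_Ioc]
    refine ⟨⟨?_, ?_⟩, h2⟩
    · exact lt_of_lt_of_le hX (Nat.floor_mono (fx_mono hξ (by linarith) hu.le h1.1.le))
    · exact (Nat.floor_mono (fx_mono hξ (by linarith) (hu.le.trans h1.1.le) h1.2)).trans hY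
  have h3 : volume (Ioc u v ∩ AA ξ e P) ≤
      ENNReal.ofReal ((#{m ∈ Finset.Ioc X (X + Y) | m ∈ P} : ℝ) * (1 / (ξ * (e * u ^ (e - 1))))) := by
    refine (measure_mono hsub).trans ((measure_biUnion_finset_le _ _).trans ?_)
    refine (Finset.sum_le_sum (fun m _ => level hξ he hu m)).trans ?_
    rw [Finset.sum_const, nsmul_eq_mul, ENNReal.ofReal_mul (by positivity), ENNReal.ofReal_natCast]
  rw [Measure.real]
  exact ENNReal.toReal_le_of_le_ofReal (by positivity) h3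

end Pool.Agent.L7h6.PL
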