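import Pool.Agent.L7h6.PL.Main

/-!
# Positive density along the powers of almost every real number (helper6), part 7: corollaries

`log_law` and `log_law_lower`: the powers `ξ α ^ n`, logarithmic density; `lac_law` and `lac_law_lower`: the numbers
`ξ α ^ (q ^ n)`, natural density.
-/

set_option autoImplicit false

namespace Pool.Agent.L7h6.PL

open MeasureTheory Set Finset Filter

/-- `P n` has upper density at most `β` in the windows `(X, X + Y]`, `X ^ θ ≤ Y ≤ X`, at the size `α ^ (e n)` -/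
def UpperWin (P : ℕ → Set ℕ) (e : ℕ → ℝ) (θ β : ℝ) : Prop :=
  ∀ A B : ℝ, 1 < A → A < B → ∃ n₀ : ℕ, ∀ n : ℕ, n₀ ≤ n → Win (P n) θ β (A ^ e n) (B ^ e n)

/-- `Q n` has lower density at least `c` in the windows `(X, X + Y]`, `X ^ θ ≤ Y ≤ X`, at the size `α ^ (e n)` -/
def LowerWin (Q : ℕ → Set ℕ) (e : ℕ → ℝ) (θ c : ℝ) : Prop :=
  ∀ A B : ℝ, 1 < A → A < B → ∃ n₀ : ℕ, ∀ n : ℕ, n₀ ≤ n → ∀ X Y : ℕ, A ^ e n ≤ (X : ℝ) → (X : ℝ) ≤ B ^ e n →
    (X : ℝ) ^ θ ≤ Y → Y ≤ X → c * Y ≤ ({m : ℕ | X < m ∧ m ≤ X + Y ∧ m ∈ Q n}.ncard : ℝ)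

lemma LowerWin.compl {Q : ℕ → Set ℕ} {e : ℕ → ℝ} {θ c : ℝ} (h : LowerWin Q e θ c) :
    UpperWin (fun n => (Q n)ᶜ) e θ (1 - c) := by
  classical
  intro A B hA hAB
  obtain ⟨n₀, hn₀⟩ := h A B hA hAB
  refine ⟨n₀, fun n hn X Y h1 h2 h3 h4 => ?_⟩
  have h5 := hn₀ n hn X Y h1 h2 h3 h4
  have e1 : {m : ℕ | X < m ∧ m ≤ X + Y ∧ m ∈ Q n} = ↑((Finset.Ioc X (X + Y)).filter (fun m => m ∈ Q n)) := by
    ext m
    simp only [coe_filter, Finset.mem_Ioc, Set.mem_ofPred_eq]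
    tauto
  have e2 : {m : ℕ | X < m ∧ m ≤ X + Y ∧ m ∈ (Q n)ᶜ} = ↑((Finset.Ioc X (X + Y)).filter (fun m => ¬ m ∈ Q n)) := by
    ext m
    simp only [coe_filter, Finset.mem_Ioc, Set.mem_ofPred_eq, Set.mem_compl_iff]
    tauto
  rw [e1, Set.ncard_coe_finset] at h5
  rw [e2, Set.ncard_coe_finset]
  have h6 := Finset.card_filter_add_card_filter_not (s := Finset.Ioc X (X + Y)) (fun m => m ∈ Q n)
  rw [Nat.card_Ioc] at h6
  have h7 : ((#((Finset.Ioc X (X + Y)).filter (fun m => m ∈ Q n)) : ℕ) : ℝ) +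
      (#((Finset.Ioc X (X + Y)).filter (fun m => ¬ m ∈ Q n)) : ℕ) = Y := by
    have : X + Y - X = Y := by omega
    rw [this] at h6
    exact_mod_cast h6
  linarith

/-! ## Powers -/

/-- exponents `n` -/
noncomputable def en (n : ℕ) : ℝ := max 1 n

lemma en_eq {n : ℕ} (hn : 1 ≤ n) : en n = n := max_eq_right (by exact_mod_cast hn)

lemma fx_en (ξ α : ℝ) {n : ℕ} (hn : 1 ≤ n) : fx ξ (en n) α = ξ * α ^ n := by
  unfold fx
  rw [en_eq hn, Real.rpow_natCast]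

lemma block_sum (f : ℕ → ℝ) (J : ℕ) :
    ∑ j ∈ range J, ∑ n ∈ Finset.Ico (2 ^ j) (2 ^ (j + 1)), f n = ∑ n ∈ Finset.Ico 1 (2 ^ J), f n := by
  induction J with
  | zero => simp
  | succ J ih =>
    rw [Finset.sum_range_succ, ih, Finset.sum_Ico_consecutive _ Nat.one_le_two_pow
      (Nat.pow_le_pow_right (by norm_num) (Nat.le_succ J))]

lemma weight_block (j : ℕ) : ∑ n ∈ Finset.Ico (2 ^ j) (2 ^ (j + 1)), 1 / ((n : ℕ) : ℝ) ≤ 1 := by
  calc _ ≤ ∑ _n ∈ Finset.Ico (2 ^ j : ℕ) (2 ^ (j + 1)), 1 / (2 : ℝ) ^ j := by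
        refine Finset.sum_le_sum fun n hn => ?_
        rw [Finset.mem_Ico] at hn
        have h1 : (2 : ℝ) ^ j ≤ n := by exact_mod_cast hn.1
        exact one_div_le_one_div_of_le (by positivity) h1
    _ = 1 := by
        rw [Finset.sum_const, Nat.card_Ico, nsmul_eq_mul]
        have : 2 ^ (j + 1) - 2 ^ j = 2 ^ j := by
          rw [pow_succ]; omega
        rw [this]
        push_cast
        field_simp

lemma sum_inv_le (J : ℕ) : ∑ n ∈ Finset.Ico 1 (2 ^ J), 1 / ((n : ℕ) : ℝ) ≤ 1 + J * Real.log 2 := by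
  have h := harmonic_le_one_add_log (2 ^ J)
  have h1 : ∑ n ∈ Finset.Ico 1 (2 ^ J), 1 / ((n : ℕ) : ℝ) ≤ ((harmonic (2 ^ J) : ℚ) : ℝ) := by
    rw [harmonic_eq_sum_Icc]
    push_cast
    simp only [one_div]
    exact Finset.sum_le_sum_of_subset_of_nonneg (fun n hn => by
      rw [Finset.mem_Ico] at hn
      rw [Finset.mem_Icc]
      omega) (fun n _ _ => by positivity)
  refine h1.trans (h.trans (le_of_eq ?_))
  push_cast
  rw [Real.log_pow]

open Classical in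
/-- **Upper logarithmic density along powers.** -/
theorem log_law {P : ℕ → Set ℕ} {θ β ξ : ℝ} (hξ : 0 < ξ) (hθ0 : 0 < θ) (hθ1 : θ < 1) (hβ : 0 ≤ β) (hβ1 : β ≤ 1)
    (hP : UpperWin P (fun n => (n : ℝ)) θ β) :
    ∀ᵐ α : ℝ, 1 < α → ∀ ε : ℝ, 0 < ε → ∀ᶠ N : ℕ in atTop,
      ∑ n ∈ (Finset.Icc 1 N).filter (fun n => ⌊ξ * α ^ n⌋₊ ∈ P n), 1 / (n : ℝ) ≤ (β + ε) * Real.log N := by
  have h := powers_law (ξ := ξ) (e := en) (w := fun n => 1 / (n : ℝ)) (P := P)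
    (T := fun j => Finset.Ico (2 ^ j) (2 ^ (j + 1))) (θ := θ) (β := β) (C₀ := 2) hξ hθ0 hθ1
    (fun n => le_max_left _ _) (fun n => by positivity) hβ hβ1 (by norm_num)
    (fun j n hn => by
      rw [Finset.mem_Ico] at hn
      have h1 : 1 ≤ n := Nat.one_le_two_pow.trans hn.1
      rw [en_eq h1]
      exact ⟨by exact_mod_cast hn.1, by exact_mod_cast hn.2⟩)
    (fun j => by
      rw [Nat.card_Ico]
      have h1 : 2 ^ (j + 1) - 2 ^ j = 2 ^ j := by rw [pow_succ]; omega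
      have h2 : 2 ^ j ≤ 2 ^ (2 ^ j) := Nat.pow_le_pow_right (by norm_num) (Nat.lt_two_pow_self (n := j)).le
      rw [h1]
      exact_mod_cast h2)
    weight_block
    (fun A B hA hAB => by
      obtain ⟨n₀, hn₀⟩ := hP A B hA hAB
      refine ⟨n₀, fun j hj n hn => ?_⟩
      rw [Finset.mem_Ico] at hn
      have h1 : 1 ≤ n := Nat.one_le_two_pow.trans hn.1
      rw [en_eq h1]
      refine hn₀ n ?_
      have := (Nat.lt_two_pow_self (n := j)).le
      omega)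
  filter_upwards [h] with α hα hα1 ε hε
  obtain ⟨ε', hε'⟩ : ∃ ε', ε' = ε * Real.log 2 / 2 := ⟨_, rfl⟩
  have hlog2 : 0 < Real.log 2 := Real.log_pos one_lt_two
  have hε'0 : 0 < ε' := by rw [hε']; positivity
  obtain ⟨J₀, hJ₀⟩ := eventually_atTop.1 (hα hα1 ε' hε'0)
  have hlim : Tendsto (fun N : ℕ => Real.log N) atTop atTop := Real.tendsto_log_atTop.comp tendsto_natCast_atTop_atTop
  filter_upwards [eventually_ge_atTop (2 ^ J₀), hlim.eventually_ge_atTop ((2 + Real.log 2 + ε') * 2 / ε),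
    eventually_ge_atTop 1] with N hN hN2 hN1
  obtain ⟨J, hJ⟩ : ∃ J, J = Nat.log 2 N + 1 := ⟨_, rfl⟩
  have hJJ : J₀ ≤ J := by
    have := Nat.le_log_of_pow_le (by norm_num : 1 < 2) hN
    omega
  have hNJ : N < 2 ^ J := by rw [hJ]; exact Nat.lt_pow_succ_log_self (by norm_num) N
  have hJN : 2 ^ (J - 1) ≤ N := by
    rw [hJ]
    exact Nat.pow_log_le_self 2 (by omega)
  have hN0 : (0 : ℝ) < N := by exact_mod_cast hN1
  have hJlog : (J : ℝ) * Real.log 2 ≤ Real.log N + Real.log 2 := by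
    have h1 : ((2 : ℝ) ^ (J - 1)) ≤ N := by exact_mod_cast hJN
    have h2 := Real.log_le_log (by positivity) h1
    rw [Real.log_pow] at h2
    have h3 : ((J - 1 : ℕ) : ℝ) = J - 1 := by
      rw [Nat.cast_sub (by omega)]
      push_cast
      ring
    rw [h3] at h2
    linarith
  have hmain := hJ₀ J hJJ
  rw [block_sum] at hmain
  have hW : ∑ j ∈ range J, WW ξ en (fun n => 1 / (n : ℝ)) P (Finset.Ico (2 ^ j) (2 ^ (j + 1))) α =
      ∑ n ∈ (Finset.Ico 1 (2 ^ J)).filter (fun n => ⌊ξ * α ^ n⌋₊ ∈ P n), 1 / (n : ℝ) := by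
    unfold WW
    rw [block_sum (fun n => 1 / (n : ℝ) * (AA ξ (en n) (P n)).indicator (fun _ => (1 : ℝ)) α), Finset.sum_filter]
    refine Finset.sum_congr rfl fun n hn => ?_
    rw [Finset.mem_Ico] at hn
    have h1 : α ∈ AA ξ (en n) (P n) ↔ ⌊ξ * α ^ n⌋₊ ∈ P n := by
      show ⌊fx ξ (en n) α⌋₊ ∈ P n ↔ _
      rw [fx_en ξ α hn.1]
    by_cases h2 : ⌊ξ * α ^ n⌋₊ ∈ P n
    · rw [if_pos h2, indicator_of_mem (h1.2 h2), mul_one]
    · rw [if_neg h2, indicator_of_notMem (fun h3 => h2 (h1.1 h3)), mul_zero]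
  rw [hW] at hmain
  have hsub : ∑ n ∈ (Finset.Icc 1 N).filter (fun n => ⌊ξ * α ^ n⌋₊ ∈ P n), 1 / (n : ℝ) ≤
      ∑ n ∈ (Finset.Ico 1 (2 ^ J)).filter (fun n => ⌊ξ * α ^ n⌋₊ ∈ P n), 1 / (n : ℝ) := by
    refine Finset.sum_le_sum_of_subset_of_nonneg (fun n hn => ?_) (fun n _ _ => by positivity)
    rw [Finset.mem_filter, Finset.mem_Icc] at hn
    rw [Finset.mem_filter, Finset.mem_Ico]
    exact ⟨⟨hn.1.1, by omega⟩, hn.2⟩
  have hwt := sum_inv_le J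
  have h1 : β * ∑ n ∈ Finset.Ico 1 (2 ^ J), 1 / ((n : ℕ) : ℝ) ≤ β * (1 + (Real.log N + Real.log 2)) :=
    mul_le_mul_of_nonneg_left (by linarith) hβ
  have h2 : β * (1 + Real.log 2) ≤ 1 * (1 + Real.log 2) := mul_le_mul_of_nonneg_right hβ1 (by linarith)
  have h3 : ε' * J ≤ ε / 2 * (Real.log N + Real.log 2) := by
    have : ε' * J = ε / 2 * (J * Real.log 2) := by rw [hε']; ring
    rw [this]
    exact mul_le_mul_of_nonneg_left hJlog (by linarith)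
  have h4 : 2 + Real.log 2 + ε' ≤ ε / 2 * Real.log N := by
    rw [div_le_iff₀ hε] at hN2
    linarith
  have h5 : ε / 2 * Real.log 2 = ε' := by rw [hε']; ring
  nlinarith

open Classical in
/-- **Lower logarithmic density along powers.** -/
theorem log_law_lower {Q : ℕ → Set ℕ} {θ c ξ : ℝ} (hξ : 0 < ξ) (hθ0 : 0 < θ) (hθ1 : θ < 1) (hc : 0 ≤ c) (hc1 : c ≤ 1)
    (hQ : LowerWin Q (fun n => (n : ℝ)) θ c) :
    ∀ᵐ α : ℝ, 1 < α → ∀ ε : ℝ, 0 < ε → ∀ᶠ N : ℕ in atTop,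
      (c - ε) * Real.log N ≤ ∑ n ∈ (Finset.Icc 1 N).filter (fun n => ⌊ξ * α ^ n⌋₊ ∈ Q n), 1 / (n : ℝ) := by
  filter_upwards [log_law hξ hθ0 hθ1 (by linarith) (by linarith) hQ.compl] with α hα hα1 ε hε
  filter_upwards [hα hα1 ε hε, eventually_ge_atTop 1] with N hN hN1
  have h1 : ∑ n ∈ (Finset.Icc 1 N).filter (fun n => ⌊ξ * α ^ n⌋₊ ∈ Q n), 1 / (n : ℝ) +
      ∑ n ∈ (Finset.Icc 1 N).filter (fun n => ¬ ⌊ξ * α ^ n⌋₊ ∈ Q n), 1 / (n : ℝ) = ∑ n ∈ Finset.Icc 1 N, 1 / (n : ℝ) :=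
    Finset.sum_filter_add_sum_filter_not _ _ _
  have hN' : ∑ n ∈ (Finset.Icc 1 N).filter (fun n => ¬ ⌊ξ * α ^ n⌋₊ ∈ Q n), 1 / (n : ℝ) ≤ (1 - c + ε) * Real.log N := by
    refine le_trans (le_of_eq ?_) hN
    congr!
  have h2 : Real.log N ≤ ∑ n ∈ Finset.Icc 1 N, 1 / (n : ℝ) := by
    have h3 := log_add_one_le_harmonic N
    rw [harmonic_eq_sum_Icc] at h3
    push_cast at h3
    simp only [one_div]
    refine le_trans (Real.log_le_log (by exact_mod_cast hN1) (by linarith)) h3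
  nlinarith

/-! ## Powers with exponents `q ^ n` -/

lemma fx_pow (ξ α : ℝ) (q n : ℕ) : fx ξ ((q : ℝ) ^ n) α = ξ * α ^ (q ^ n) := by
  unfold fx
  rw [← Nat.cast_pow, Real.rpow_natCast]

open Classical in
/-- **Upper density along the powers with exponents `q ^ n`.** -/
theorem lac_law {P : ℕ → Set ℕ} {θ β ξ : ℝ} {q : ℕ} (hq : 2 ≤ q) (hξ : 0 < ξ) (hθ0 : 0 < θ) (hθ1 : θ < 1)
    (hβ : 0 ≤ β) (hβ1 : β ≤ 1) (hP : UpperWin P (fun n => (q : ℝ) ^ n) θ β) :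
    ∀ᵐ α : ℝ, 1 < α → ∀ ε : ℝ, 0 < ε → ∀ᶠ N : ℕ in atTop,
      (#{n ∈ range N | ⌊ξ * α ^ (q ^ n)⌋₊ ∈ P n} : ℝ) ≤ (β + ε) * N := by
  have hq1 : (1 : ℝ) ≤ q := by exact_mod_cast (show 1 ≤ q by omega)
  obtain ⟨T, hTdef⟩ : ∃ T : ℕ → Finset ℕ, T = fun j => (range (j + 1)).filter (fun n => 2 ^ j ≤ q ^ n ∧ q ^ n < 2 ^ (j + 1)) :=
    ⟨_, rfl⟩
  have hmemT : ∀ j n, n ∈ T j ↔ 2 ^ j ≤ q ^ n ∧ q ^ n < 2 ^ (j + 1) := by
    intro j n
    rw [hTdef]
    simp only [Finset.mem_filter, Finset.mem_range]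
    refine ⟨fun h => h.2, fun h => ⟨?_, h⟩⟩
    by_contra hcon
    have h1 : 2 ^ (j + 1) ≤ 2 ^ n := Nat.pow_le_pow_right (by norm_num) (by omega)
    have h2 : 2 ^ n ≤ q ^ n := Nat.pow_le_pow_left hq n
    omega
  have hT1 : ∀ j, #(T j) ≤ 1 := by
    intro j
    rw [Finset.card_le_one]
    intro x hx y hy
    rw [hmemT] at hx hy
    have key : ∀ x y : ℕ, x < y → 2 ^ j ≤ q ^ x → q ^ y < 2 ^ (j + 1) → False := by
      intro x y hxy h1 h2
      have h3 : q ^ (x + 1) ≤ q ^ y := Nat.pow_le_pow_right (by omega) hxy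
      have h4 : q ^ x * 2 ≤ q ^ (x + 1) := by
        rw [pow_succ]
        exact Nat.mul_le_mul_left _ hq
      rw [pow_succ] at h2
      omega
    rcases lt_trichotomy x y with h | h | h
    · exact (key x y h hx.1 hy.2).elim
    · exact h
    · exact (key y x h hy.1 hx.2).elim
  have h := powers_law (ξ := ξ) (e := fun n => (q : ℝ) ^ n) (w := fun _ => 1) (P := P) (T := T) (θ := θ) (β := β)
    (C₀ := 1) hξ hθ0 hθ1 (fun n => one_le_pow₀ hq1) (fun n => zero_le_one) hβ hβ1 le_rfl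
    (fun j n hn => by
      rw [hmemT] at hn
      exact ⟨by exact_mod_cast hn.1, by exact_mod_cast hn.2⟩)
    (fun j => by
      rw [one_pow]
      exact_mod_cast hT1 j)
    (fun j => by
      rw [Finset.sum_const, nsmul_eq_mul, mul_one]
      exact_mod_cast hT1 j)
    (fun A B hA hAB => by
      obtain ⟨n₀, hn₀⟩ := hP A B hA hAB
      refine ⟨q ^ n₀, fun j hj n hn => ?_⟩
      rw [hmemT] at hn
      refine hn₀ n ?_
      by_contra hcon
      have h1 : q ^ n ≤ q ^ n₀ := Nat.pow_le_pow_right (by omega) (by omega)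
      have h2 := Nat.lt_two_pow_self (n := j)
      omega)
  filter_upwards [h] with α hα hα1 ε hε
  obtain ⟨ε', hε'⟩ : ∃ ε', ε' = ε / (2 * q) := ⟨_, rfl⟩
  have hε'0 : 0 < ε' := by rw [hε']; positivity
  obtain ⟨J₀, hJ₀⟩ := eventually_atTop.1 (hα hα1 ε' hε'0)
  obtain ⟨N₀, hN₀⟩ := exists_nat_ge ((1 + ε') * 2 / ε)
  filter_upwards [eventually_ge_atTop J₀, eventually_ge_atTop N₀] with N hN hN2
  obtain ⟨J, hJ⟩ : ∃ J, J = Nat.log 2 (q ^ N) + 1 := ⟨_, rfl⟩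
  have hNJ : q ^ N < 2 ^ J := by rw [hJ]; exact Nat.lt_pow_succ_log_self (by norm_num) _
  have hJN : 2 ^ (J - 1) ≤ q ^ N := by
    rw [hJ]
    exact Nat.pow_log_le_self 2 (by positivity)
  have hNJ' : N < J := by
    by_contra hcon
    have h1 : 2 ^ J ≤ 2 ^ N := Nat.pow_le_pow_right (by norm_num) (by omega)
    have h2 : 2 ^ N ≤ q ^ N := Nat.pow_le_pow_left hq N
    omega
  have hJq : J ≤ q * N + 1 := by
    by_contra hcon
    have h1 : 2 ^ (q * N + 1) ≤ 2 ^ (J - 1) := Nat.pow_le_pow_right (by norm_num) (by omega)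
    have h2 : q ^ N ≤ (2 ^ q) ^ N := Nat.pow_le_pow_left (Nat.lt_two_pow_self).le N
    rw [← pow_mul] at h2
    have h3 : 2 ^ (q * N) < 2 ^ (q * N + 1) := Nat.pow_lt_pow_right (by norm_num) (Nat.lt_succ_self _)
    omega
  have hmain := hJ₀ J (by omega)
  -- the left side
  have hdisj : ∀ n, ∀ j ∈ range J, ∀ j' ∈ range J, n ∈ T j → n ∈ T j' → j = j' := by
    intro n j _ j' _ h1 h2
    rw [hmemT] at h1 h2
    have key : ∀ j j' : ℕ, j < j' → q ^ n < 2 ^ (j + 1) → 2 ^ j' ≤ q ^ n → False := by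
      intro j j' h3 h4 h5
      have : 2 ^ (j + 1) ≤ 2 ^ j' := Nat.pow_le_pow_right (by norm_num) h3
      omega
    rcases lt_trichotomy j j' with h | h | h
    · exact (key j j' h h1.2 h2.1).elim
    · exact h
    · exact (key j' j h h2.2 h1.1).elim
  have hpw : ((range J : Finset ℕ) : Set ℕ).PairwiseDisjoint T := by
    intro j hj j' hj' hne
    rw [Function.onFun, Finset.disjoint_left]
    intro n h1 h2
    exact hne (hdisj n j (by simpa using hj) j' (by simpa using hj') h1 h2)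
  have hU : (range J).biUnion T = (range J).filter (fun n => q ^ n < 2 ^ J) := by
    ext n
    rw [Finset.mem_biUnion, Finset.mem_filter]
    constructor
    · rintro ⟨j, hj, hn⟩
      rw [hmemT] at hn
      rw [Finset.mem_range] at hj ⊢
      have h1 : 2 ^ (j + 1) ≤ 2 ^ J := Nat.pow_le_pow_right (by norm_num) (by omega)
      have h2 : q ^ n < 2 ^ J := by omega
      refine ⟨?_, h2⟩
      by_contra hcon
      have h3 : 2 ^ J ≤ 2 ^ n := Nat.pow_le_pow_right (by norm_num) (by omega)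
      have h4 : 2 ^ n ≤ q ^ n := Nat.pow_le_pow_left hq n
      omega
    · rintro ⟨hn, h2⟩
      refine ⟨Nat.log 2 (q ^ n), ?_, ?_⟩
      · rw [Finset.mem_range]
        exact Nat.log_lt_of_lt_pow (by positivity) h2
      · rw [hmemT]
        exact ⟨Nat.pow_log_le_self 2 (by positivity), Nat.lt_pow_succ_log_self (by norm_num) _⟩
  have hl : (#{n ∈ range N | ⌊ξ * α ^ (q ^ n)⌋₊ ∈ P n} : ℝ) ≤
      ∑ j ∈ range J, WW ξ (fun n => (q : ℝ) ^ n) (fun _ => 1) P (T j) α := by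
    unfold WW
    rw [← Finset.sum_biUnion hpw, hU]
    have h1 : (#{n ∈ range N | ⌊ξ * α ^ (q ^ n)⌋₊ ∈ P n} : ℝ) =
        ∑ n ∈ {n ∈ range N | ⌊ξ * α ^ (q ^ n)⌋₊ ∈ P n}, (1 : ℝ) := by simp
    rw [h1]
    have h2 : ∑ n ∈ {n ∈ range N | ⌊ξ * α ^ (q ^ n)⌋₊ ∈ P n}, (1 : ℝ) =
        ∑ n ∈ {n ∈ range N | ⌊ξ * α ^ (q ^ n)⌋₊ ∈ P n},
          1 * (AA ξ ((q : ℝ) ^ n) (P n)).indicator (fun _ => (1 : ℝ)) α := by
      refine Finset.sum_congr rfl fun n hn => ?_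
      rw [Finset.mem_filter] at hn
      have h3 : α ∈ AA ξ ((q : ℝ) ^ n) (P n) := by
        show ⌊fx ξ ((q : ℝ) ^ n) α⌋₊ ∈ P n
        rw [fx_pow]
        exact hn.2
      rw [indicator_of_mem h3, mul_one]
    rw [h2]
    refine Finset.sum_le_sum_of_subset_of_nonneg (fun n hn => ?_) (fun n _ _ => ?_)
    · rw [Finset.mem_filter, Finset.mem_range] at hn
      rw [Finset.mem_filter, Finset.mem_range]
      refine ⟨by omega, ?_⟩
      have : q ^ n ≤ q ^ N := Nat.pow_le_pow_right (by omega) (by omega)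
      omega
    · rw [one_mul]
      exact indicator_nonneg (fun _ _ => zero_le_one) α
  have hr : ∑ j ∈ range J, ∑ n ∈ T j, (1 : ℝ) ≤ N + 1 := by
    rw [← Finset.sum_biUnion hpw, hU]
    simp only [Finset.sum_const, nsmul_eq_mul, mul_one]
    have h1 : #{n ∈ range J | q ^ n < 2 ^ J} ≤ N + 1 := by
      rw [← card_range (N + 1)]
      apply Finset.card_le_card
      intro n hn
      rw [Finset.mem_filter] at hn
      rw [Finset.mem_range]
      by_contra hcon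
      have h2 : q ^ (N + 1) ≤ q ^ n := Nat.pow_le_pow_right (by omega) (by omega)
      have h3 : 2 ^ J ≤ 2 * q ^ N := by
        obtain ⟨K, rfl⟩ : ∃ K, J = K + 1 := ⟨J - 1, by omega⟩
        rw [pow_succ]
        simp only [Nat.add_sub_cancel] at hJN
        omega
      have h4 : 2 * q ^ N ≤ q ^ (N + 1) := by
        rw [pow_succ, mul_comm]
        exact Nat.mul_le_mul_left _ hq
      omega
    exact_mod_cast h1
  have hNr : (N₀ : ℝ) ≤ N := by exact_mod_cast hN2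
  have h1 : β * ∑ j ∈ range J, ∑ n ∈ T j, (1 : ℝ) ≤ β * (N + 1) := mul_le_mul_of_nonneg_left hr hβ
  have h2 : ε' * J ≤ ε' * (q * N + 1) := mul_le_mul_of_nonneg_left (by exact_mod_cast hJq) hε'0.le
  have h3 : ε' * (q * N) = ε / 2 * N := by
    rw [hε']
    field_simp
  have h4 : 1 + ε' ≤ ε / 2 * N := by
    rw [div_le_iff₀ hε] at hN₀
    nlinarith
  calc _ ≤ _ := hl
    _ ≤ _ := hmain
    _ ≤ (β + ε) * N := by nlinarith

open Classical in
/-- **Lower density along the powers with exponents `q ^ n`.** -/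
theorem lac_law_lower {Q : ℕ → Set ℕ} {θ c ξ : ℝ} {q : ℕ} (hq : 2 ≤ q) (hξ : 0 < ξ) (hθ0 : 0 < θ) (hθ1 : θ < 1)
    (hc : 0 ≤ c) (hc1 : c ≤ 1) (hQ : LowerWin Q (fun n => (q : ℝ) ^ n) θ c) :
    ∀ᵐ α : ℝ, 1 < α → ∀ ε : ℝ, 0 < ε → ∀ᶠ N : ℕ in atTop,
      (c - ε) * N ≤ (#{n ∈ range N | ⌊ξ * α ^ (q ^ n)⌋₊ ∈ Q n} : ℝ) := by
  filter_upwards [lac_law hq hξ hθ0 hθ1 (by linarith) (by linarith) hQ.compl] with α hα hα1 ε hε
  filter_upwards [hα hα1 ε hε] with N hN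
  have h6 := Finset.card_filter_add_card_filter_not (s := range N) (fun n => ⌊ξ * α ^ (q ^ n)⌋₊ ∈ Q n)
  rw [card_range] at h6
  have h7 : (#{n ∈ range N | ⌊ξ * α ^ (q ^ n)⌋₊ ∈ Q n} : ℝ) + (#{n ∈ range N | ¬ ⌊ξ * α ^ (q ^ n)⌋₊ ∈ Q n} : ℝ) = N := by
    exact_mod_cast h6
  have hN' : (#{n ∈ range N | ¬ ⌊ξ * α ^ (q ^ n)⌋₊ ∈ Q n} : ℝ) ≤ (1 - c + ε) * N := by
    refine le_trans (le_of_eq ?_) hN
    congr!
  linarith

end Pool.Agent.L7h6.PL
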