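import Pool.Agent.L7h6.PL.Rec

/-!
# Positive density along the powers of almost every real number (helper6), part 5: one-sided law of large numbers
-/

set_option autoImplicit false

namespace Pool.Agent.L7h6.PL

open MeasureTheory Set Finset Filter

lemma small {s δ : ℝ} (hs : 0 < s) (hδ : 0 < δ) : ∃ J₀ : ℕ, ∀ J : ℕ, J₀ ≤ J → ∀ N : ℕ,
    (N : ℝ) * Real.exp N * Real.exp (-(s * 2 ^ (J + N))) ≤ δ := by
  obtain ⟨K, hK⟩ : ∃ K : ℝ, K = max 2 (Real.log (1 / δ)) := ⟨_, rfl⟩
  have hK2 : 2 ≤ K := by rw [hK]; exact le_max_left _ _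
  have hKδ : Real.log (1 / δ) ≤ K := by rw [hK]; exact le_max_right _ _
  obtain ⟨J₀, hJ₀⟩ := exists_nat_ge (K / s)
  refine ⟨J₀, fun J hJ N => ?_⟩
  have h1 : K ≤ s * 2 ^ J := by
    rw [div_le_iff₀ hs] at hJ₀
    have h2 : (J₀ : ℝ) ≤ 2 ^ J := by
      have h3 : (J₀ : ℝ) ≤ J := by exact_mod_cast hJ
      have h4 : (J : ℝ) ≤ 2 ^ J := by exact_mod_cast (Nat.lt_two_pow_self (n := J)).le
      linarith
    nlinarith
  have h2 : ((N : ℝ) + 1) ≤ 2 ^ N := by exact_mod_cast (Nat.lt_two_pow_self (n := N))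
  have hN0 : (0 : ℝ) ≤ N := Nat.cast_nonneg N
  have h3 : K * (N + 1) ≤ s * 2 ^ (J + N) := by
    rw [pow_add, ← mul_assoc]
    exact mul_le_mul h1 h2 (by positivity) (by linarith)
  have h4 : (N : ℝ) ≤ Real.exp N := by linarith [Real.add_one_le_exp (N : ℝ)]
  calc (N : ℝ) * Real.exp N * Real.exp (-(s * 2 ^ (J + N)))
      ≤ Real.exp N * Real.exp N * Real.exp (-(K * (N + 1))) := by
        apply mul_le_mul _ (Real.exp_le_exp.2 (by linarith)) (Real.exp_pos _).le (by positivity)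
        exact mul_le_mul_of_nonneg_right h4 (Real.exp_pos _).le
    _ = Real.exp (N + N + -(K * (N + 1))) := by rw [Real.exp_add, Real.exp_add]
    _ ≤ Real.exp (-K) := Real.exp_le_exp.2 (by nlinarith)
    _ ≤ Real.exp (-Real.log (1 / δ)) := Real.exp_le_exp.2 (by linarith)
    _ = δ := by rw [one_div, Real.log_inv, neg_neg, Real.exp_log hδ]

lemma sum_biUnion_le {ι : Type} (S : Finset ι) (T : ι → Finset ℕ) (f : ℕ → ℝ) (hf : ∀ m, 0 ≤ f m) :
    ∑ m ∈ S.biUnion T, f m ≤ ∑ i ∈ S, ∑ m ∈ T i, f m := by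
  classical
  induction S using Finset.induction_on with
  | empty => simp
  | insert i S hi ih =>
    rw [Finset.biUnion_insert, Finset.sum_insert hi]
    have h1 : ∑ m ∈ T i ∪ S.biUnion T, f m ≤ ∑ m ∈ T i, f m + ∑ m ∈ S.biUnion T, f m := by
      rw [← Finset.sum_union_inter]
      have : 0 ≤ ∑ m ∈ T i ∩ S.biUnion T, f m := Finset.sum_nonneg fun m _ => hf m
      linarith
    linarith

variable {ξ : ℝ} {e w : ℕ → ℝ} {P : ℕ → Set ℕ} {T : ℕ → Finset ℕ}

/-- sum over the blocks `J, J + L, J + 2 L, …` -/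
noncomputable def HH (ξ : ℝ) (e w : ℕ → ℝ) (P : ℕ → Set ℕ) (T : ℕ → Finset ℕ) (J L N : ℕ) (α : ℝ) : ℝ :=
  ∑ i ∈ range N, WW ξ e w P (T (J + L * i)) α

lemma HH_measurable (J L N : ℕ) : Measurable (HH ξ e w P T J L N) := by
  unfold HH
  exact Finset.measurable_fun_sum _ fun i _ => WW_measurable _

lemma HH_nonneg (hw : ∀ n, 0 ≤ w n) (J L N : ℕ) (α : ℝ) : 0 ≤ HH ξ e w P T J L N α :=
  Finset.sum_nonneg fun i _ => WW_nonneg hw _ _

lemma HH_le (hw : ∀ n, 0 ≤ w n) (hsum : ∀ j, ∑ n ∈ T j, w n ≤ 1) (J L N : ℕ) (α : ℝ) :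
    HH ξ e w P T J L N α ≤ N := by
  calc HH ξ e w P T J L N α ≤ ∑ i ∈ range N, (1 : ℝ) :=
        Finset.sum_le_sum fun i _ => (WW_le hw _ _).trans (hsum _)
    _ = N := by simp

/-- **The exponential moment.** -/
lemma moment {a b κ β t ε C₀ : ℝ} {J L : ℕ} (ha : 1 < a) (hab : a < b) (hξ : 0 < ξ) (he : ∀ n, 1 ≤ e n)
    (hw : ∀ n, 0 ≤ w n) (ht : 0 ≤ t) (ht1 : t ≤ 1) (hβ : 0 ≤ β) (hε : 0 < ε) (hC₀ : 1 ≤ C₀) (hκ : 0 < κ) (hL : 1 ≤ L)
    (hT : ∀ j, ∀ n ∈ T j, (2 : ℝ) ^ j ≤ e n ∧ e n < 2 ^ (j + 1)) (hcard : ∀ j, (#(T j) : ℝ) ≤ C₀ ^ (2 ^ j : ℕ))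
    (hsum : ∀ j, ∑ n ∈ T j, w n ≤ 1)
    (hgrid : ∀ j, J ≤ j → ∀ n ∈ T j, 1 ≤ (b - a) * a ^ (κ * e n) ∧ ∀ u v : ℝ, a ≤ u → v ≤ b → v - u = ll a b κ (e n) →
      volume.real (Set.Ioc u v ∩ AA ξ (e n) (P n)) ≤ β * (v - u))
    (hbig : (C₀ * b) ^ 2 ≤ (a ^ (κ / 2)) ^ (2 ^ L : ℕ))
    (hsmall : ∀ N : ℕ, (N : ℝ) * Real.exp N * Real.exp (-(κ / 2 * Real.log a * 2 ^ (J + N))) ≤ ε * (b - a) / ξ)
    (N : ℕ) :
    ∫ x in a..b, Real.exp (t * HH ξ e w P T J L N x) ≤
      (b - a) * Real.exp ((Real.exp t - 1) * ∑ i ∈ range N, (β * ∑ n ∈ T (J + L * i), w n + ε)) := by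
  have ha0 : 0 < a := by linarith
  have hb0 : 0 < b := by linarith
  have ht0 : 0 ≤ Real.exp t - 1 := by
    have := Real.add_one_le_exp t
    linarith
  induction N with
  | zero =>
    simp only [HH, Finset.range_zero, Finset.sum_empty, mul_zero, Real.exp_zero, intervalIntegral.integral_const,
      smul_eq_mul, mul_one]
    exact le_rfl
  | succ N ih =>
    obtain ⟨G, hG⟩ : ∃ G : ℝ → ℝ, G = fun x => Real.exp (t * HH ξ e w P T J L N x) := ⟨_, rfl⟩
    have hGm : Measurable G := by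
      rw [hG]
      exact (measurable_const.mul (HH_measurable J L N)).exp
    have hG1 : ∀ x, 1 ≤ G x := fun x => by
      rw [hG]
      exact Real.one_le_exp (mul_nonneg ht (HH_nonneg hw J L N x))
    have hGM : ∀ x, G x ≤ Real.exp N := fun x => by
      rw [hG]
      refine Real.exp_le_exp.2 ?_
      have h1 := HH_le (ξ := ξ) (e := e) (P := P) hw hsum J L N x
      have h2 := HH_nonneg (ξ := ξ) (e := e) (P := P) (T := T) hw J L N x
      calc t * _ ≤ 1 * _ := mul_le_mul_of_nonneg_right ht1 h2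
        _ ≤ N := by rw [one_mul]; exact h1
    obtain ⟨past, hpast⟩ : ∃ past : Finset ℕ, past = (range N).biUnion (fun i => T (J + L * i)) := ⟨_, rfl⟩
    have hGi : IntervalIntegrable G volume a b :=
      ii_of_bdd (M := Real.exp N) hGm (fun x => by rw [abs_of_nonneg (by linarith [hG1 x])]; exact hGM x) _ _
    have hsize : (∑ m ∈ past, ξ * b ^ (e m)) ≤ ξ * N * a ^ (κ / 2 * 2 ^ (J + L * N)) := by
      rcases Nat.eq_zero_or_pos N with h0 | h0
      · rw [hpast, h0]
        simp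
      · obtain ⟨K, rfl⟩ : ∃ K, N = K + 1 := ⟨N - 1, by omega⟩
        have h1 : ∀ i ∈ range (K + 1), ∀ m ∈ T (J + L * i), ξ * b ^ (e m) ≤ ξ * (b ^ 2) ^ (2 ^ (J + L * K) : ℕ) := by
          intro i hi m hm
          rw [Finset.mem_range] at hi
          have h2 := (hT _ m hm).2
          have h3 : J + L * i ≤ J + L * K := by
            have := Nat.mul_le_mul_left L (show i ≤ K by omega)
            omega
          have h4 : e m ≤ ((2 * 2 ^ (J + L * K) : ℕ) : ℝ) := by
            push_cast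
            have h5 : (2 : ℝ) ^ (J + L * i + 1) ≤ 2 ^ (J + L * K + 1) :=
              pow_le_pow_right₀ (by norm_num) (by omega)
            rw [pow_succ (2 : ℝ) (J + L * K)] at h5
            linarith
          have h6 : b ^ (e m) ≤ b ^ ((2 * 2 ^ (J + L * K) : ℕ) : ℝ) := Real.rpow_le_rpow_of_exponent_le (by linarith) h4
          rw [Real.rpow_natCast, pow_mul] at h6
          exact mul_le_mul_of_nonneg_left h6 hξ.le
        have h2 : (∑ m ∈ past, ξ * b ^ (e m)) ≤ ∑ i ∈ range (K + 1), ∑ m ∈ T (J + L * i), ξ * b ^ (e m) := by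
          rw [hpast]
          exact sum_biUnion_le _ _ _ (fun m => by positivity)
        have h3 : ∀ i ∈ range (K + 1), ∑ m ∈ T (J + L * i), ξ * b ^ (e m) ≤
            ξ * ((C₀ * b) ^ 2) ^ (2 ^ (J + L * K) : ℕ) := by
          intro i hi
          have h4 : ∑ m ∈ T (J + L * i), ξ * b ^ (e m) ≤ #(T (J + L * i)) * (ξ * (b ^ 2) ^ (2 ^ (J + L * K) : ℕ)) := by
            rw [← nsmul_eq_mul, ← Finset.sum_const]
            exact Finset.sum_le_sum (h1 i hi)
          have h5 : (#(T (J + L * i)) : ℝ) ≤ (C₀ ^ 2) ^ (2 ^ (J + L * K) : ℕ) := by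
            refine (hcard _).trans ?_
            rw [← pow_mul]
            apply pow_le_pow_right₀ hC₀
            rw [Finset.mem_range] at hi
            have h6 : J + L * i ≤ J + L * K := by
              have := Nat.mul_le_mul_left L (show i ≤ K by omega)
              omega
            have h7 : 2 ^ (J + L * i) ≤ 2 ^ (J + L * K) := Nat.pow_le_pow_right (by norm_num) h6
            omega
          calc _ ≤ _ := h4
            _ ≤ (C₀ ^ 2) ^ (2 ^ (J + L * K) : ℕ) * (ξ * (b ^ 2) ^ (2 ^ (J + L * K) : ℕ)) :=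
                mul_le_mul_of_nonneg_right h5 (by positivity)
            _ = _ := by rw [mul_pow C₀ b 2, mul_pow]; ring
        have h4 : ((C₀ * b) ^ 2) ^ (2 ^ (J + L * K) : ℕ) ≤ a ^ (κ / 2 * 2 ^ (J + L * (K + 1))) := by
          have h5 : ((C₀ * b) ^ 2) ^ (2 ^ (J + L * K) : ℕ) ≤ ((a ^ (κ / 2)) ^ (2 ^ L : ℕ)) ^ (2 ^ (J + L * K) : ℕ) :=
            pow_le_pow_left₀ (by positivity) hbig _
          refine h5.trans (le_of_eq ?_)
          rw [← pow_mul, ← pow_add, ← Real.rpow_natCast, ← Real.rpow_mul ha0.le]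
          congr 1
          push_cast
          ring
        calc _ ≤ _ := h2
          _ ≤ ∑ i ∈ range (K + 1), ξ * ((C₀ * b) ^ 2) ^ (2 ^ (J + L * K) : ℕ) := Finset.sum_le_sum h3
          _ = (K + 1 : ℕ) * (ξ * ((C₀ * b) ^ 2) ^ (2 ^ (J + L * K) : ℕ)) := by
              rw [Finset.sum_const, card_range, nsmul_eq_mul]
          _ ≤ (K + 1 : ℕ) * (ξ * a ^ (κ / 2 * 2 ^ (J + L * (K + 1)))) :=
              mul_le_mul_of_nonneg_left (mul_le_mul_of_nonneg_left h4 hξ.le) (Nat.cast_nonneg _)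
          _ = _ := by ring
    have hstep := exp_step (a := a) (b := b) (κ := κ) (β := β) (t := t) (M := Real.exp N) (ρ := ε * (b - a))
      (P := P) ha hab hξ he hw ht hβ past (T (J + L * N)) hGm (fun x => by linarith [hG1 x]) hGM
      (by
        intro x y hxy
        rw [hG]
        beta_reduce
        congr 2
        unfold HH
        refine Finset.sum_congr rfl fun i hi => WW_const fun n hn => hxy n ?_
        rw [hpast, Finset.mem_biUnion]
        exact ⟨i, hi, hn⟩) (hsum _) (hgrid _ (Nat.le_add_right _ _)) (by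
        intro n hn
        have h1 := (hT _ n hn).1
        have h2 : a ^ (-(κ * e n)) ≤ a ^ (-(κ * 2 ^ (J + L * N))) := by
          apply Real.rpow_le_rpow_of_exponent_le ha.le
          have := mul_le_mul_of_nonneg_left h1 hκ.le
          linarith
        have h3 : a ^ (κ / 2 * 2 ^ (J + L * N)) * a ^ (-(κ * 2 ^ (J + L * N))) =
            Real.exp (-(κ / 2 * Real.log a * 2 ^ (J + L * N))) := by
          rw [← Real.rpow_add ha0, Real.rpow_def_of_pos ha0]
          congr 1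
          ring
        have h4 : Real.exp (-(κ / 2 * Real.log a * 2 ^ (J + L * N))) ≤
            Real.exp (-(κ / 2 * Real.log a * 2 ^ (J + N))) := by
          apply Real.exp_le_exp.2
          have h5 : (2 : ℝ) ^ (J + N) ≤ 2 ^ (J + L * N) := by
            apply pow_le_pow_right₀ (by norm_num)
            have := Nat.le_mul_of_pos_left N (show 0 < L by omega)
            omega
          have h6 : 0 ≤ κ / 2 * Real.log a := mul_nonneg (by linarith) (Real.log_nonneg ha.le)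
          have := mul_le_mul_of_nonneg_left h5 h6
          linarith
        calc (∑ m ∈ past, ξ * b ^ (e m)) * Real.exp N * a ^ (-(κ * e n))
            ≤ (ξ * N * a ^ (κ / 2 * 2 ^ (J + L * N))) * Real.exp N * a ^ (-(κ * 2 ^ (J + L * N))) := by
              apply mul_le_mul _ h2 (Real.rpow_nonneg ha0.le _) (by positivity)
              exact mul_le_mul_of_nonneg_right hsize (Real.exp_pos _).le
          _ = ξ * (N * Real.exp N * (a ^ (κ / 2 * 2 ^ (J + L * N)) * a ^ (-(κ * 2 ^ (J + L * N))))) := by ring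
          _ ≤ ξ * (ε * (b - a) / ξ) := by
              apply mul_le_mul_of_nonneg_left _ hξ.le
              rw [h3]
              refine le_trans ?_ (hsmall N)
              exact mul_le_mul_of_nonneg_left h4 (by positivity)
          _ = ε * (b - a) := by field_simp) (by nlinarith)
    have hlow : b - a ≤ ∫ x in a..b, G x := by
      have h1 := intervalIntegral.integral_mono_on (f := fun _ => (1 : ℝ)) (g := G) hab.le
        (intervalIntegrable_const) hGi (fun x _ => hG1 x)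
      simpa using h1
    have e1 : ∫ x in a..b, Real.exp (t * HH ξ e w P T J L (N + 1) x) =
        ∫ x in a..b, G x * Real.exp (t * WW ξ e w P (T (J + L * N)) x) := by
      congr 1
      ext x
      rw [hG]
      beta_reduce
      rw [← Real.exp_add]
      congr 1
      unfold HH
      rw [Finset.sum_range_succ]
      ring
    rw [e1, Finset.sum_range_succ]
    refine hstep.trans ?_
    rw [hG] at hstep hlow ⊢
    obtain ⟨I, hI⟩ : ∃ I, I = ∫ x in a..b, Real.exp (t * HH ξ e w P T J L N x) := ⟨_, rfl⟩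
    rw [← hI] at ih hlow ⊢
    obtain ⟨ω, hω⟩ : ∃ ω, ω = ∑ n ∈ T (J + L * N), w n := ⟨_, rfl⟩
    have hω0 : 0 ≤ ω := by rw [hω]; exact Finset.sum_nonneg fun n _ => hw n
    rw [← hω]
    have hI0 : 0 ≤ I := by linarith
    have h1 : (1 + (Real.exp t - 1) * (β * ω)) * I + (Real.exp t - 1) * (ε * (b - a)) ≤
        (1 + (Real.exp t - 1) * (β * ω + ε)) * I := by
      have h2 : (Real.exp t - 1) * (ε * (b - a)) ≤ (Real.exp t - 1) * (ε * I) :=
        mul_le_mul_of_nonneg_left (mul_le_mul_of_nonneg_left hlow hε.le) ht0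
      nlinarith
    refine h1.trans ?_
    have h3 : 1 + (Real.exp t - 1) * (β * ω + ε) ≤ Real.exp ((Real.exp t - 1) * (β * ω + ε)) := by
      have := Real.add_one_le_exp ((Real.exp t - 1) * (β * ω + ε))
      linarith
    calc (1 + (Real.exp t - 1) * (β * ω + ε)) * I
        ≤ Real.exp ((Real.exp t - 1) * (β * ω + ε)) *
          ((b - a) * Real.exp ((Real.exp t - 1) * ∑ i ∈ range N, (β * ∑ n ∈ T (J + L * i), w n + ε))) :=
          mul_le_mul h3 ih hI0 (Real.exp_pos _).le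
      _ = _ := by
        have h4 : ∀ S x : ℝ, Real.exp ((Real.exp t - 1) * (S + x)) =
            Real.exp ((Real.exp t - 1) * x) * Real.exp ((Real.exp t - 1) * S) := fun S x => by
          rw [← Real.exp_add]
          congr 1
          ring
        rw [h4 (∑ i ∈ range N, (β * ∑ n ∈ T (J + L * i), w n + ε))]
        ring

/-- **The deviations of one class of blocks.** -/
lemma ae_class {a b κ β ε C₀ : ℝ} {J L : ℕ} (ha : 1 < a) (hab : a < b) (hξ : 0 < ξ) (he : ∀ n, 1 ≤ e n)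
    (hw : ∀ n, 0 ≤ w n) (hβ : 0 ≤ β) (hβ2 : β ≤ 2) (hε : 0 < ε) (hε1 : ε ≤ 1) (hC₀ : 1 ≤ C₀) (hκ : 0 < κ) (hL : 1 ≤ L)
    (hT : ∀ j, ∀ n ∈ T j, (2 : ℝ) ^ j ≤ e n ∧ e n < 2 ^ (j + 1)) (hcard : ∀ j, (#(T j) : ℝ) ≤ C₀ ^ (2 ^ j : ℕ))
    (hsum : ∀ j, ∑ n ∈ T j, w n ≤ 1)
    (hgrid : ∀ j, J ≤ j → ∀ n ∈ T j, 1 ≤ (b - a) * a ^ (κ * e n) ∧ ∀ u v : ℝ, a ≤ u → v ≤ b → v - u = ll a b κ (e n) →
      volume.real (Set.Ioc u v ∩ AA ξ (e n) (P n)) ≤ β * (v - u))
    (hbig : (C₀ * b) ^ 2 ≤ (a ^ (κ / 2)) ^ (2 ^ L : ℕ))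
    (hsmall : ∀ N : ℕ, (N : ℝ) * Real.exp N * Real.exp (-(κ / 2 * Real.log a * 2 ^ (J + N))) ≤ ε * (b - a) / ξ) :
    ∀ᵐ x ∂(volume.restrict (Set.Ioc a b)), ∀ᶠ N : ℕ in atTop,
      HH ξ e w P T J L N x ≤ ∑ i ∈ range N, (β * ∑ n ∈ T (J + L * i), w n) + 2 * ε * N := by
  obtain ⟨t, ht⟩ : ∃ t, t = ε / 6 := ⟨_, rfl⟩
  have ht0 : 0 < t := by rw [ht]; positivity
  have ht1 : t ≤ 1 := by rw [ht]; linarith
  obtain ⟨U, hU⟩ : ∃ U : ℕ → ℝ, U = fun N => ∑ i ∈ range N, (β * ∑ n ∈ T (J + L * i), w n + ε) := ⟨_, rfl⟩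
  have hU0 : ∀ N, 0 ≤ U N := fun N => by
    rw [hU]
    refine Finset.sum_nonneg fun i _ => ?_
    have : 0 ≤ ∑ n ∈ T (J + L * i), w n := Finset.sum_nonneg fun n _ => hw n
    positivity
  have hU3 : ∀ N : ℕ, U N ≤ 3 * N := fun N => by
    rw [hU]
    calc _ ≤ ∑ i ∈ range N, (3 : ℝ) := by
          refine Finset.sum_le_sum fun i _ => ?_
          have h1 := hsum (J + L * i)
          have h0 : 0 ≤ ∑ n ∈ T (J + L * i), w n := Finset.sum_nonneg fun n _ => hw n
          nlinarith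
      _ = 3 * N := by simp; ring
  have hmeas : ∀ N : ℕ, volume.restrict (Set.Ioc a b) {x | U N + ε * N ≤ HH ξ e w P T J L N x} ≤
      ENNReal.ofReal ((b - a) * Real.exp (-(ε ^ 2 / 12)) ^ N) := by
    intro N
    have hm := moment (t := t) ha hab hξ he hw ht0.le ht1 hβ hε hC₀ hκ hL hT hcard hsum hgrid hbig hsmall N
    rw [intervalIntegral.integral_of_le hab.le] at hm
    obtain ⟨F, hF⟩ : ∃ F : ℝ → ℝ, F = fun x => Real.exp (t * HH ξ e w P T J L N x) := ⟨_, rfl⟩
    have hFm : Measurable F := by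
      rw [hF]
      exact (measurable_const.mul (HH_measurable J L N)).exp
    have hFi : Integrable F (volume.restrict (Set.Ioc a b)) := by
      have h1 : IntervalIntegrable F volume a b := by
        refine ii_of_bdd (M := Real.exp N) hFm (fun x => ?_) _ _
        rw [hF]
        beta_reduce
        rw [abs_of_pos (Real.exp_pos _)]
        refine Real.exp_le_exp.2 ?_
        have h1 := HH_le (ξ := ξ) (e := e) (P := P) hw hsum J L N x
        have h2 := HH_nonneg (ξ := ξ) (e := e) (P := P) (T := T) hw J L N x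
        calc t * _ ≤ 1 * _ := mul_le_mul_of_nonneg_right ht1 h2
          _ ≤ N := by rw [one_mul]; exact h1
      exact (intervalIntegrable_iff_integrableOn_Ioc_of_le hab.le).1 h1
    have hmk := mul_meas_ge_le_integral_of_nonneg (μ := volume.restrict (Set.Ioc a b)) (f := F)
      (Eventually.of_forall fun x => by rw [hF]; exact (Real.exp_pos _).le) hFi (Real.exp (t * (U N + ε * N)))
    have hset : {x | Real.exp (t * (U N + ε * N)) ≤ F x} = {x | U N + ε * N ≤ HH ξ e w P T J L N x} := by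
      ext x
      rw [hF]
      simp only [Set.mem_ofPred_eq, Real.exp_le_exp]
      exact mul_le_mul_iff_right₀ ht0
    rw [hset] at hmk
    have hint : ∫ x in Set.Ioc a b, F x ≤ (b - a) * Real.exp ((Real.exp t - 1) * U N) := by
      rw [hF, hU]
      exact hm
    have hexp : Real.exp t - 1 ≤ t + t ^ 2 := by
      have h1 := Real.abs_exp_sub_one_sub_id_le (x := t) (by rw [abs_of_pos ht0]; exact ht1)
      have h2 := (abs_le.1 h1).2
      linarith
    have hN0 : (0 : ℝ) ≤ N := Nat.cast_nonneg N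
    have h3 : (Real.exp t - 1) * U N ≤ t * (U N + ε * N) - ε ^ 2 / 12 * N := by
      have h4 : (Real.exp t - 1) * U N ≤ (t + t ^ 2) * U N := mul_le_mul_of_nonneg_right hexp (hU0 N)
      have h5 : t ^ 2 * U N ≤ t ^ 2 * (3 * N) := mul_le_mul_of_nonneg_left (hU3 N) (by positivity)
      have h6 : t ^ 2 * (3 * N) = t * (ε * N) - ε ^ 2 / 12 * N := by
        rw [ht]
        ring
      nlinarith
    have h4 : (volume.restrict (Set.Ioc a b)).real {x | U N + ε * N ≤ HH ξ e w P T J L N x} ≤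
        (b - a) * Real.exp (-(ε ^ 2 / 12)) ^ N := by
      have h5 : Real.exp (t * (U N + ε * N)) *
          (volume.restrict (Set.Ioc a b)).real {x | U N + ε * N ≤ HH ξ e w P T J L N x} ≤
          (b - a) * Real.exp (t * (U N + ε * N) - ε ^ 2 / 12 * N) :=
        hmk.trans (hint.trans (mul_le_mul_of_nonneg_left (Real.exp_le_exp.2 h3) (by linarith)))
      have h6 : (b - a) * Real.exp (t * (U N + ε * N) - ε ^ 2 / 12 * N) =
          Real.exp (t * (U N + ε * N)) * ((b - a) * Real.exp (-(ε ^ 2 / 12)) ^ N) := by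
        rw [← Real.exp_nat_mul, show t * (U N + ε * N) - ε ^ 2 / 12 * N =
          t * (U N + ε * N) + (N : ℝ) * -(ε ^ 2 / 12) by ring, Real.exp_add]
        ring
      rw [h6] at h5
      exact le_of_mul_le_mul_left h5 (Real.exp_pos _)
    rw [Measure.real] at h4
    exact (ENNReal.le_ofReal_iff_toReal_le (measure_ne_top _ _) (by
      have : 0 < b - a := by linarith
      positivity)).2 h4
  have hsumm : ∑' N : ℕ, volume.restrict (Set.Ioc a b) {x | U N + ε * N ≤ HH ξ e w P T J L N x} ≠ ⊤ := by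
    have h1 : Summable fun N : ℕ => (b - a) * Real.exp (-(ε ^ 2 / 12)) ^ N := by
      apply Summable.mul_left
      apply summable_geometric_of_lt_one (Real.exp_pos _).le
      rw [Real.exp_lt_one_iff]
      have : 0 < ε ^ 2 := by positivity
      linarith
    exact ne_top_of_le_ne_top h1.tsum_ofReal_ne_top (ENNReal.tsum_le_tsum hmeas)
  filter_upwards [ae_eventually_notMem hsumm] with x hx
  filter_upwards [hx] with N hN
  have h1 : ¬ (U N + ε * N ≤ HH ξ e w P T J L N x) := hN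
  push Not at h1
  have h2 : U N = ∑ i ∈ range N, (β * ∑ n ∈ T (J + L * i), w n) + ε * N := by
    rw [hU]
    beta_reduce
    rw [Finset.sum_add_distrib, Finset.sum_const, card_range, nsmul_eq_mul]
    ring
  linarith

end Pool.Agent.L7h6.PL
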