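import Pool.Agent.L7h6.PL.LLN

/-!
# Positive density along the powers of almost every real number (helper6), part 6: the theorem
-/

set_option autoImplicit false

namespace Pool.Agent.L7h6.PL

open MeasureTheory Set Finset Filter

variable {ξ : ℝ} {e w : ℕ → ℝ} {P : ℕ → Set ℕ} {T : ℕ → Finset ℕ}

lemma sum_classes (f : ℕ → ℝ) (J L N : ℕ) :
    ∑ r ∈ range L, ∑ i ∈ range N, f (J + r + L * i) = ∑ j ∈ range (L * N), f (J + j) := by
  induction N with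
  | zero => simp
  | succ N ih =>
    rw [Nat.mul_succ, Finset.sum_range_add, ← ih, ← Finset.sum_add_distrib]
    refine Finset.sum_congr rfl fun r _ => ?_
    rw [Finset.sum_range_succ]
    congr 2
    ring

/-- the law in an interval, for one `ε` -/
lemma interval_law {a b θ β ε C₀ : ℝ} (ha : 1 < a) (hab : a < b) (hξ : 0 < ξ) (hθ0 : 0 < θ) (hθ1 : θ < 1)
    (he : ∀ n, 1 ≤ e n) (hw : ∀ n, 0 ≤ w n) (hβ : 0 ≤ β) (hβ1 : β ≤ 1) (hε : 0 < ε) (hε1 : ε ≤ 1) (hC₀ : 1 ≤ C₀)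
    (hT : ∀ j, ∀ n ∈ T j, (2 : ℝ) ^ j ≤ e n ∧ e n < 2 ^ (j + 1)) (hcard : ∀ j, (#(T j) : ℝ) ≤ C₀ ^ (2 ^ j : ℕ))
    (hsum : ∀ j, ∑ n ∈ T j, w n ≤ 1)
    (hP : ∀ A B : ℝ, 1 < A → A < B → ∃ j₀ : ℕ, ∀ j, j₀ ≤ j → ∀ n ∈ T j, Win (P n) θ β (A ^ e n) (B ^ e n)) :
    ∀ᵐ x ∂(volume.restrict (Set.Ioc a b)), ∀ᶠ J : ℕ in atTop,
      ∑ j ∈ range J, WW ξ e w P (T j) x ≤ β * ∑ j ∈ range J, ∑ n ∈ T j, w n + 4 * ε * J := by
  obtain ⟨κ, hκ⟩ : ∃ κ, κ = (1 - θ) / 2 := ⟨_, rfl⟩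
  have hκ0 : 0 < κ := by rw [hκ]; linarith
  have ha0 : 0 < a := by linarith
  have hba : 0 < b - a := by linarith
  have hsa : 1 < √a := by
    rw [Real.lt_sqrt (by norm_num)]
    linarith
  have hsab : √a < b + 1 := by
    have : √a ≤ a := by
      rw [Real.sqrt_le_left ha0.le]
      nlinarith
    linarith
  obtain ⟨E₀, hE₀⟩ := eventually_atTop.1 (grid (ξ := ξ) ha hab hθ0 hθ1 hξ hβ hε)
  rw [← hκ] at hE₀
  obtain ⟨j₀, hj₀⟩ := hP (√a) (b + 1) hsa hsab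
  have hs : 0 < κ / 2 * Real.log a := mul_pos (by linarith) (Real.log_pos ha)
  obtain ⟨J₁, hJ₁⟩ := small hs (show 0 < ε * (b - a) / ξ by positivity)
  obtain ⟨J₂, hJ₂⟩ := exists_nat_ge E₀
  obtain ⟨J₀, hJ₀⟩ : ∃ J₀ : ℕ, J₀ = j₀ + J₁ + J₂ := ⟨_, rfl⟩
  have hc : 1 < a ^ (κ / 2) := Real.one_lt_rpow ha (by linarith)
  obtain ⟨L, hL⟩ := pow_unbounded_of_one_lt ((C₀ * b) ^ 2) hc
  have hL1 : 1 ≤ L := by
    rcases Nat.eq_zero_or_pos L with h | h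
    · rw [h, pow_zero] at hL
      have : 1 ≤ C₀ * b := by nlinarith
      nlinarith
    · exact h
  have hbig : (C₀ * b) ^ 2 ≤ (a ^ (κ / 2)) ^ (2 ^ L : ℕ) :=
    hL.le.trans (pow_le_pow_right₀ hc.le (Nat.lt_two_pow_self (n := L)).le)
  have hgrid : ∀ j, J₀ ≤ j → ∀ n ∈ T j, 1 ≤ (b - a) * a ^ (κ * e n) ∧ ∀ u v : ℝ, a ≤ u → v ≤ b →
      v - u = ll a b κ (e n) → volume.real (Set.Ioc u v ∩ AA ξ (e n) (P n)) ≤ (β + ε) * (v - u) := by
    intro j hj n hn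
    have h1 : E₀ ≤ e n := by
      have h2 := (hT j n hn).1
      have h3 : (J₂ : ℝ) ≤ 2 ^ j := by
        have h4 : J₂ ≤ 2 ^ j := by
          have := (Nat.lt_two_pow_self (n := j)).le
          omega
        exact_mod_cast h4
      linarith
    obtain ⟨h2, h3⟩ := hE₀ (e n) h1
    exact ⟨h2, fun u v hu hv huv => h3 (P n) (hj₀ j (by omega) n hn) u v hu hv huv⟩
  have hcls : ∀ r : ℕ, ∀ᵐ x ∂(volume.restrict (Set.Ioc a b)), ∀ᶠ N : ℕ in atTop,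
      HH ξ e w P T (J₀ + r) L N x ≤
        ∑ i ∈ range N, ((β + ε) * ∑ n ∈ T (J₀ + r + L * i), w n) + 2 * ε * N := fun r =>
    ae_class ha hab hξ he hw (by linarith) (by linarith) hε hε1 hC₀ hκ0 hL1 hT hcard hsum
      (fun j hj => hgrid j (by omega)) hbig (fun N => hJ₁ (J₀ + r) (by omega) N)
  filter_upwards [ae_all_iff.2 hcls] with x hx
  have hx' : ∀ᶠ N : ℕ in atTop, ∀ r ∈ range L, HH ξ e w P T (J₀ + r) L N x ≤
        ∑ i ∈ range N, ((β + ε) * ∑ n ∈ T (J₀ + r + L * i), w n) + 2 * ε * N :=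
    (Filter.eventually_all_finset _).2 fun r _ => hx r
  obtain ⟨N₁, hN₁⟩ := eventually_atTop.1 hx'
  obtain ⟨J₃, hJ₃⟩ := exists_nat_ge ((J₀ + 4 * L) / ε)
  filter_upwards [eventually_ge_atTop (J₀ + L * N₁ + J₃)] with J hJ
  obtain ⟨N, hN⟩ : ∃ N : ℕ, N = (J - J₀) / L + 1 := ⟨_, rfl⟩
  have hN1 : J ≤ J₀ + L * N := by
    have h1 := Nat.div_add_mod (J - J₀) L
    have h2 := Nat.mod_lt (J - J₀) (show 0 < L by omega)
    rw [hN, Nat.mul_add]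
    omega
  have hN2 : J₀ + L * N ≤ J + L := by
    have h1 := Nat.div_add_mod (J - J₀) L
    rw [hN, Nat.mul_add]
    omega
  have hN3 : N₁ ≤ N := by
    rw [hN]
    have : N₁ ≤ (J - J₀) / L := by
      rw [Nat.le_div_iff_mul_le (by omega), mul_comm]
      omega
    omega
  have hall := hN₁ N hN3
  obtain ⟨ω, hω⟩ : ∃ ω : ℕ → ℝ, ω = fun j => ∑ n ∈ T j, w n := ⟨_, rfl⟩
  obtain ⟨V, hV⟩ : ∃ V : ℕ → ℝ, V = fun j => WW ξ e w P (T j) x := ⟨_, rfl⟩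
  have hω0 : ∀ j, 0 ≤ ω j := fun j => by rw [hω]; exact Finset.sum_nonneg fun n _ => hw n
  have hω1 : ∀ j, ω j ≤ 1 := fun j => by rw [hω]; exact hsum j
  have hV0 : ∀ j, 0 ≤ V j := fun j => by rw [hV]; exact WW_nonneg hw _ _
  have hV1 : ∀ j, V j ≤ 1 := fun j => by rw [hV]; exact (WW_le hw _ _).trans (hsum j)
  have hS : ∑ j ∈ range (L * N), V (J₀ + j) ≤ (β + ε) * ∑ j ∈ range (L * N), ω (J₀ + j) + 2 * ε * (L * N) := by
    rw [← sum_classes V, ← sum_classes ω]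
    calc ∑ r ∈ range L, ∑ i ∈ range N, V (J₀ + r + L * i)
        ≤ ∑ r ∈ range L, (∑ i ∈ range N, ((β + ε) * ω (J₀ + r + L * i)) + 2 * ε * N) := by
          refine Finset.sum_le_sum fun r hr => ?_
          have := hall r hr
          rw [hV, hω]
          exact this
      _ = _ := by
          rw [Finset.sum_add_distrib, Finset.sum_const, card_range, nsmul_eq_mul, Finset.mul_sum]
          congr 1
          · refine Finset.sum_congr rfl fun r _ => ?_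
            rw [Finset.mul_sum]
          · ring
  have e1 : ∑ j ∈ range J, V j ≤ J₀ + ∑ j ∈ range (L * N), V (J₀ + j) := by
    calc ∑ j ∈ range J, V j ≤ ∑ j ∈ range (J₀ + L * N), V j :=
          Finset.sum_le_sum_of_subset_of_nonneg (Finset.range_subset_range.2 hN1) fun j _ _ => hV0 j
      _ = ∑ j ∈ range J₀, V j + ∑ j ∈ range (L * N), V (J₀ + j) := Finset.sum_range_add _ _ _
      _ ≤ ∑ j ∈ range J₀, (1 : ℝ) + ∑ j ∈ range (L * N), V (J₀ + j) :=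
          add_le_add (Finset.sum_le_sum fun j _ => hV1 j) le_rfl
      _ = _ := by simp
  have e2 : ∑ j ∈ range (L * N), ω (J₀ + j) ≤ ∑ j ∈ range J, ω j + L := by
    obtain ⟨D, hD⟩ : ∃ D, J₀ + L * N = J + D := ⟨J₀ + L * N - J, by omega⟩
    have hDL : D ≤ L := by omega
    have h1 : ∑ j ∈ range J₀, ω j + ∑ j ∈ range (L * N), ω (J₀ + j) = ∑ j ∈ range J, ω j +
        ∑ j ∈ range D, ω (J + j) := by
      rw [← Finset.sum_range_add, hD, Finset.sum_range_add]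
    have h2 : 0 ≤ ∑ j ∈ range J₀, ω j := Finset.sum_nonneg fun j _ => hω0 j
    have h3 : ∑ j ∈ range D, ω (J + j) ≤ D := by
      calc _ ≤ ∑ j ∈ range D, (1 : ℝ) := Finset.sum_le_sum fun j _ => hω1 _
        _ = D := by simp
    have h4 : (D : ℝ) ≤ L := by exact_mod_cast hDL
    linarith
  have e3 : ∑ j ∈ range J, ω j ≤ J := by
    calc _ ≤ ∑ j ∈ range J, (1 : ℝ) := Finset.sum_le_sum fun j _ => hω1 _
      _ = J := by simp
  have e4 : ((L * N : ℕ) : ℝ) ≤ J + L := by exact_mod_cast (show L * N ≤ J + L by omega)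
  push_cast at e4
  have e5 : (J₀ : ℝ) + 4 * L ≤ ε * J := by
    rw [div_le_iff₀ hε] at hJ₃
    have h1 : (J₃ : ℝ) ≤ J := by exact_mod_cast (show J₃ ≤ J by omega)
    nlinarith
  have hL0 : (0 : ℝ) ≤ L := Nat.cast_nonneg L
  have hJ0 : (0 : ℝ) ≤ J := Nat.cast_nonneg J
  obtain ⟨Ω, hΩ⟩ : ∃ Ω, Ω = ∑ j ∈ range J, ω j := ⟨_, rfl⟩
  have hΩ0 : 0 ≤ Ω := by rw [hΩ]; exact Finset.sum_nonneg fun j _ => hω0 j
  have goal : ∑ j ∈ range J, V j ≤ β * Ω + 4 * ε * J := by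
    have h1 : (β + ε) * ∑ j ∈ range (L * N), ω (J₀ + j) ≤ (β + ε) * (Ω + L) :=
      mul_le_mul_of_nonneg_left (by rw [hΩ]; exact e2) (by linarith)
    have h2 : 2 * ε * (L * N) ≤ 2 * ε * (J + L) := mul_le_mul_of_nonneg_left e4 (by linarith)
    rw [← hΩ] at e3
    have h3 : ε * Ω ≤ ε * J := mul_le_mul_of_nonneg_left e3 hε.le
    have h4 : β * L ≤ 1 * L := mul_le_mul_of_nonneg_right hβ1 hL0
    have h5 : ε * L ≤ 1 * L := mul_le_mul_of_nonneg_right hε1 hL0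
    nlinarith
  rw [hΩ, hV, hω] at goal
  exact goal

/-- **Density along the powers of almost every real number.** The exponents `e n ≥ 1`, the weights `w n` and the finite sets
`T j` of indices `n` with `2 ^ j ≤ e n < 2 ^ (j + 1)` are arbitrary, of total weight at most `1` and with at most `C₀ ^ (2 ^ j)`
elements. Let the sets `P n` of integers have at most `β Y` elements in the windows `(X, X + Y]`, `X ^ θ ≤ Y ≤ X`, in the range
`A ^ e n ≤ X ≤ B ^ e n`, for all `1 < A < B` and all large `n`. Then for almost every `α > 1` the weight of the `n` in the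
first `J` blocks with `⌊ξ α ^ e n⌋ ∈ P n` is at most `β` times the whole weight plus `ε J`, for every `ε > 0` and all large
`J`. -/
theorem powers_law {θ β C₀ : ℝ} (hξ : 0 < ξ) (hθ0 : 0 < θ) (hθ1 : θ < 1)
    (he : ∀ n, 1 ≤ e n) (hw : ∀ n, 0 ≤ w n) (hβ : 0 ≤ β) (hβ1 : β ≤ 1) (hC₀ : 1 ≤ C₀)
    (hT : ∀ j, ∀ n ∈ T j, (2 : ℝ) ^ j ≤ e n ∧ e n < 2 ^ (j + 1)) (hcard : ∀ j, (#(T j) : ℝ) ≤ C₀ ^ (2 ^ j : ℕ))
    (hsum : ∀ j, ∑ n ∈ T j, w n ≤ 1)
    (hP : ∀ A B : ℝ, 1 < A → A < B → ∃ j₀ : ℕ, ∀ j, j₀ ≤ j → ∀ n ∈ T j, Win (P n) θ β (A ^ e n) (B ^ e n)) :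
    ∀ᵐ α : ℝ, 1 < α → ∀ ε : ℝ, 0 < ε → ∀ᶠ J : ℕ in atTop,
      ∑ j ∈ range J, WW ξ e w P (T j) α ≤ β * ∑ j ∈ range J, ∑ n ∈ T j, w n + ε * J := by
  have h1 : ∀ k m : ℕ, ∀ᵐ x : ℝ, x ∈ Set.Ioc (1 + 1 / ((m : ℝ) + 1)) (m + 3) → ∀ᶠ J : ℕ in atTop,
      ∑ j ∈ range J, WW ξ e w P (T j) x ≤
        β * ∑ j ∈ range J, ∑ n ∈ T j, w n + 4 * (1 / ((k : ℝ) + 1)) * J := by
    intro k m
    have hm : (0 : ℝ) < m + 1 := by positivity
    have hk : (0 : ℝ) < k + 1 := by positivity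
    have h2 : 0 < 1 / ((m : ℝ) + 1) := by positivity
    have h3 : 1 / ((m : ℝ) + 1) ≤ 1 := by
      rw [div_le_one hm]
      have : (0 : ℝ) ≤ m := Nat.cast_nonneg m
      linarith
    have h4 : 1 / ((k : ℝ) + 1) ≤ 1 := by
      rw [div_le_one hk]
      have : (0 : ℝ) ≤ k := Nat.cast_nonneg k
      linarith
    have hm0 : (0 : ℝ) ≤ m := Nat.cast_nonneg m
    have h5 := interval_law (a := 1 + 1 / ((m : ℝ) + 1)) (b := m + 3) (ε := 1 / ((k : ℝ) + 1)) (P := P)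
      (by linarith) (by linarith) hξ hθ0 hθ1 he hw hβ hβ1 (by positivity) h4 hC₀ hT hcard hsum hP
    exact (ae_restrict_iff' measurableSet_Ioc).1 h5
  filter_upwards [ae_all_iff.2 fun k => ae_all_iff.2 fun m => h1 k m] with α hα hα1 ε hε
  obtain ⟨k, hk⟩ := exists_nat_ge (4 / ε)
  obtain ⟨m, hm⟩ := exists_nat_ge (max (1 / (α - 1)) α)
  have hm1 : 1 / (α - 1) ≤ m := (le_max_left _ _).trans hm
  have hm2 : α ≤ m := (le_max_right _ _).trans hm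
  have hα0 : 0 < α - 1 := by linarith
  have hmem : α ∈ Set.Ioc (1 + 1 / ((m : ℝ) + 1)) (m + 3) := by
    constructor
    · have h2 : 1 / ((m : ℝ) + 1) < α - 1 := by
        rw [div_le_iff₀ hα0] at hm1
        rw [div_lt_iff₀ (by positivity)]
        nlinarith
      linarith
    · linarith
  filter_upwards [hα k m hmem] with J hJ
  refine hJ.trans ?_
  have h2 : 4 * (1 / ((k : ℝ) + 1)) ≤ ε := by
    rw [div_le_iff₀ hε] at hk
    rw [mul_one_div, div_le_iff₀ (by positivity)]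
    nlinarith
  have := mul_le_mul_of_nonneg_right h2 (Nat.cast_nonneg (α := ℝ) J)
  linarith

end Pool.Agent.L7h6.PL
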