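import Pool.Agent.L7h6.PL.Cell

/-!
# Positive density along the powers of almost every real number (helper6), part 3: one step of the exponential moment
-/

set_option autoImplicit false

namespace Pool.Agent.L7h6.PL

open MeasureTheory Set Finset Filter

/-- end points of the cells -/
noncomputable def tt (a b : ℝ) (k i : ℕ) : ℝ := a + i * ((b - a) / k)

lemma tt_zero (a b : ℝ) (k : ℕ) : tt a b k 0 = a := by simp [tt]

lemma tt_last (a b : ℝ) {k : ℕ} (hk : 0 < k) : tt a b k k = b := by
  have : (0 : ℝ) < k := by exact_mod_cast hk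
  unfold tt
  field_simp
  ring

lemma tt_succ (a b : ℝ) (k i : ℕ) : tt a b k (i + 1) - tt a b k i = (b - a) / k := by
  unfold tt
  push_cast
  ring

lemma tt_mono {a b : ℝ} (hab : a < b) (k : ℕ) : Monotone (tt a b k) := by
  intro i j hij
  unfold tt
  have h1 : (i : ℝ) ≤ j := by exact_mod_cast hij
  have h2 : 0 ≤ (b - a) / k := div_nonneg (by linarith) (Nat.cast_nonneg k)
  have := mul_le_mul_of_nonneg_right h1 h2
  linarith

lemma tt_ge {a b : ℝ} (hab : a < b) (k i : ℕ) : a ≤ tt a b k i := by
  have h := tt_mono hab k (Nat.zero_le i)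
  rwa [tt_zero] at h

lemma tt_le {a b : ℝ} (hab : a < b) {k i : ℕ} (hi : i < k) : tt a b k (i + 1) ≤ b := by
  have h := tt_mono hab k hi
  rwa [tt_last a b (show 0 < k by omega)] at h

lemma ii_of_bdd {F : ℝ → ℝ} {M : ℝ} (hF : Measurable F) (hM : ∀ x, |F x| ≤ M) (u v : ℝ) :
    IntervalIntegrable F volume u v := by
  rw [intervalIntegrable_iff]
  refine Measure.integrableOn_of_bounded (M := M) ?_ hF.aestronglyMeasurable
    (Eventually.of_forall fun x => by simpa using hM x)
  rw [uIoc]
  exact measure_Ioc_lt_top.ne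

/-- **One step.** -/
lemma step {a b : ℝ} (hab : a < b) {k : ℕ} (hk : 0 < k) {G : ℝ → ℝ} {A : Set ℝ} {M β : ℝ}
    (hG : Measurable G) (hG0 : ∀ x, 0 ≤ G x) (hGM : ∀ x, G x ≤ M) (hA : MeasurableSet A) (hβ : 0 ≤ β)
    (hcell : ∀ i < k, volume.real (Set.Ioc (tt a b k i) (tt a b k (i + 1)) ∩ A) ≤ β * ((b - a) / k))
    (Bd : Finset ℕ) (hgood : ∀ i < k, i ∉ Bd → ∃ c, ∀ x ∈ Set.Ioc (tt a b k i) (tt a b k (i + 1)), G x = c) :
    ∫ x in a..b, G x * A.indicator (fun _ => (1 : ℝ)) x ≤
      β * (∫ x in a..b, G x) + (#Bd : ℝ) * M * ((b - a) / k) := by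
  have hM0 : 0 ≤ M := (hG0 0).trans (hGM 0)
  have hℓ : 0 ≤ (b - a) / k := div_nonneg (by linarith) (Nat.cast_nonneg k)
  obtain ⟨H, hH⟩ : ∃ H : ℝ → ℝ, H = fun x => G x * A.indicator (fun _ => (1 : ℝ)) x := ⟨_, rfl⟩
  have hHm : Measurable H := by
    rw [hH]
    exact hG.mul (measurable_const.indicator hA)
  have hH0 : ∀ x, 0 ≤ H x := fun x => by
    rw [hH]
    exact mul_nonneg (hG0 x) (indicator_nonneg (fun _ _ => zero_le_one) x)
  have hHM : ∀ x, H x ≤ M := fun x => by
    rw [hH]
    beta_reduce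
    by_cases hx : x ∈ A
    · rw [indicator_of_mem hx, mul_one]; exact hGM x
    · rw [indicator_of_notMem hx, mul_zero]; exact hM0
  have hHi : ∀ u v, IntervalIntegrable H volume u v := fun u v =>
    ii_of_bdd (M := M) hHm (fun x => by rw [abs_of_nonneg (hH0 x)]; exact hHM x) u v
  have hGi : ∀ u v, IntervalIntegrable G volume u v := fun u v =>
    ii_of_bdd (M := M) hG (fun x => by rw [abs_of_nonneg (hG0 x)]; exact hGM x) u v
  have e1 : ∫ x in a..b, H x = ∑ i ∈ range k, ∫ x in (tt a b k i)..(tt a b k (i + 1)), H x := by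
    rw [intervalIntegral.sum_integral_adjacent_intervals (fun i _ => hHi _ _), tt_zero, tt_last a b hk]
  have e2 : ∫ x in a..b, G x = ∑ i ∈ range k, ∫ x in (tt a b k i)..(tt a b k (i + 1)), G x := by
    rw [intervalIntegral.sum_integral_adjacent_intervals (fun i _ => hGi _ _), tt_zero, tt_last a b hk]
  have key : ∀ i ∈ range k, ∫ x in (tt a b k i)..(tt a b k (i + 1)), H x ≤
      β * (∫ x in (tt a b k i)..(tt a b k (i + 1)), G x) + (if i ∈ Bd then M * ((b - a) / k) else 0) := by
    intro i hi
    rw [Finset.mem_range] at hi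
    have hle : tt a b k i ≤ tt a b k (i + 1) := tt_mono hab k (Nat.le_succ i)
    rw [intervalIntegral.integral_of_le hle, intervalIntegral.integral_of_le hle]
    have hvol : volume.real (Set.Ioc (tt a b k i) (tt a b k (i + 1))) = (b - a) / k := by
      rw [Real.volume_real_Ioc_of_le hle, tt_succ]
    have hfin : volume (Set.Ioc (tt a b k i) (tt a b k (i + 1))) ≠ ⊤ := measure_Ioc_lt_top.ne
    by_cases hb : i ∈ Bd
    · rw [if_pos hb]
      have h1 : ∫ x in Set.Ioc (tt a b k i) (tt a b k (i + 1)), H x ≤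
          ∫ _ in Set.Ioc (tt a b k i) (tt a b k (i + 1)), M := by
        apply setIntegral_mono
        · exact (intervalIntegrable_iff_integrableOn_Ioc_of_le hle).1 (hHi _ _)
        · exact integrableOn_const hfin
        · exact hHM
      rw [setIntegral_const, hvol, smul_eq_mul] at h1
      have h2 : 0 ≤ ∫ x in Set.Ioc (tt a b k i) (tt a b k (i + 1)), G x :=
        setIntegral_nonneg measurableSet_Ioc fun x _ => hG0 x
      have h3 := mul_nonneg hβ h2
      linarith
    · rw [if_neg hb, add_zero]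
      obtain ⟨c, hc⟩ := hgood i hi hb
      have hc0 : 0 ≤ c := by
        have hlt : tt a b k i < tt a b k (i + 1) := by
          have := tt_succ a b k i
          have h4 : 0 < (b - a) / k := div_pos (by linarith) (by exact_mod_cast (show 0 < k by omega))
          linarith
        rw [← hc _ ⟨hlt, le_rfl⟩]
        exact hG0 _
      have h1 : ∫ x in Set.Ioc (tt a b k i) (tt a b k (i + 1)), H x =
          ∫ x in Set.Ioc (tt a b k i) (tt a b k (i + 1)), A.indicator (fun _ => c) x := by
        apply setIntegral_congr_fun measurableSet_Ioc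
        intro x hx
        rw [hH]
        beta_reduce
        rw [hc x hx]
        by_cases hx : x ∈ A
        · rw [indicator_of_mem hx, indicator_of_mem hx, mul_one]
        · rw [indicator_of_notMem hx, indicator_of_notMem hx, mul_zero]
      have h2 : ∫ x in Set.Ioc (tt a b k i) (tt a b k (i + 1)), G x =
          ∫ _ in Set.Ioc (tt a b k i) (tt a b k (i + 1)), c :=
        setIntegral_congr_fun measurableSet_Ioc fun x hx => hc x hx
      rw [h1, h2, setIntegral_indicator hA, setIntegral_const, setIntegral_const, hvol, smul_eq_mul, smul_eq_mul]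
      have h3 := mul_le_mul_of_nonneg_right (hcell i hi) hc0
      linarith
  have e3 : ∑ i ∈ range k, (if i ∈ Bd then M * ((b - a) / k) else 0) ≤ (#Bd : ℝ) * M * ((b - a) / k) := by
    rw [← Finset.sum_filter, Finset.sum_const, nsmul_eq_mul]
    have h1 : (#((range k).filter (fun i => i ∈ Bd)) : ℝ) ≤ #Bd := by
      exact_mod_cast Finset.card_le_card (fun i hi => (Finset.mem_filter.1 hi).2)
    calc _ ≤ (#Bd : ℝ) * (M * ((b - a) / k)) := mul_le_mul_of_nonneg_right h1 (by positivity)
      _ = _ := by ring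
  have e4 : ∫ x in a..b, G x * A.indicator (fun _ => (1 : ℝ)) x = ∫ x in a..b, H x := by rw [hH]
  rw [e4, e1, e2]
  refine (Finset.sum_le_sum key).trans ?_
  rw [Finset.sum_add_distrib, ← Finset.mul_sum]
  linarith

/-- number of the changes of a nondecreasing sequence -/
lemma changes {F : ℕ → ℕ} (hF : Monotone F) (k : ℕ) : #{i ∈ range k | F i ≠ F (i + 1)} ≤ F k := by
  induction k with
  | zero => simp
  | succ k ih =>
    rw [Finset.range_add_one, Finset.filter_insert]
    by_cases h : F k ≠ F (k + 1)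
    · rw [if_pos h, Finset.card_insert_of_notMem (by simp)]
      have h1 : F k < F (k + 1) := lt_of_le_of_ne (hF (Nat.le_succ k)) h
      omega
    · rw [if_neg h]
      exact ih.trans (hF (Nat.le_succ k))

end Pool.Agent.L7h6.PL
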