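import Pool.Agent.L7h6.PL.Window
import Pool.Agent.L7h6.PL.Step

/-!
# Positive density along the powers of almost every real number (helper6), part 4: the recursion
-/

set_option autoImplicit false

namespace Pool.Agent.L7h6.PL

open MeasureTheory Set Finset Filter

/-- the weighted number of the `n ∈ S` with `⌊ξ α ^ (e n)⌋ ∈ P n` -/
noncomputable def WW (ξ : ℝ) (e w : ℕ → ℝ) (P : ℕ → Set ℕ) (S : Finset ℕ) (α : ℝ) : ℝ :=
  ∑ n ∈ S, w n * (AA ξ (e n) (P n)).indicator (fun _ => (1 : ℝ)) α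

variable {ξ : ℝ} {e w : ℕ → ℝ} {P : ℕ → Set ℕ}

lemma WW_nonneg (hw : ∀ n, 0 ≤ w n) (S : Finset ℕ) (α : ℝ) : 0 ≤ WW ξ e w P S α :=
  Finset.sum_nonneg fun n _ => mul_nonneg (hw n) (indicator_nonneg (fun _ _ => zero_le_one) α)

lemma WW_le (hw : ∀ n, 0 ≤ w n) (S : Finset ℕ) (α : ℝ) : WW ξ e w P S α ≤ ∑ n ∈ S, w n := by
  refine Finset.sum_le_sum fun n _ => ?_
  have : (AA ξ (e n) (P n)).indicator (fun _ => (1 : ℝ)) α ≤ 1 :=
    indicator_le_self' (fun _ _ => zero_le_one) α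
  calc w n * _ ≤ w n * 1 := mul_le_mul_of_nonneg_left this (hw n)
    _ = w n := mul_one _

lemma WW_measurable (S : Finset ℕ) : Measurable (WW ξ e w P S) := by
  unfold WW
  refine Finset.measurable_fun_sum _ fun n _ => ?_
  exact measurable_const.mul (measurable_const.indicator (AA_measurable _ _ _))

lemma WW_const {S : Finset ℕ} {x y : ℝ} (h : ∀ n ∈ S, ⌊fx ξ (e n) x⌋₊ = ⌊fx ξ (e n) y⌋₊) :
    WW ξ e w P S x = WW ξ e w P S y := by
  refine Finset.sum_congr rfl fun n hn => ?_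
  have h1 : x ∈ AA ξ (e n) (P n) ↔ y ∈ AA ξ (e n) (P n) := by
    show ⌊fx ξ (e n) x⌋₊ ∈ P n ↔ ⌊fx ξ (e n) y⌋₊ ∈ P n
    rw [h n hn]
  congr 1
  by_cases hx : x ∈ AA ξ (e n) (P n)
  · rw [indicator_of_mem hx, indicator_of_mem (h1.1 hx)]
  · rw [indicator_of_notMem hx, indicator_of_notMem (fun hy => hx (h1.2 hy))]

lemma exp_convex {t W : ℝ} (h0 : 0 ≤ W) (h1 : W ≤ 1) : Real.exp (t * W) ≤ 1 + (Real.exp t - 1) * W := by
  have h := convexOn_exp.2 (mem_univ 0) (mem_univ t) (show 0 ≤ 1 - W by linarith) h0 (by ring)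
  simp only [smul_eq_mul, mul_zero, zero_add, Real.exp_zero, mul_one] at h
  rw [mul_comm t W]
  linarith

/-- **One block.** -/
lemma exp_step {a b κ β t M ρ : ℝ} (ha : 1 < a) (hab : a < b) (hξ : 0 < ξ) (he : ∀ n, 1 ≤ e n) (hw : ∀ n, 0 ≤ w n)
    (ht : 0 ≤ t) (hβ : 0 ≤ β) (past S : Finset ℕ) {G : ℝ → ℝ} (hG : Measurable G) (hG0 : ∀ x, 0 ≤ G x)
    (hGM : ∀ x, G x ≤ M)
    (hGc : ∀ x y, (∀ n ∈ past, ⌊fx ξ (e n) x⌋₊ = ⌊fx ξ (e n) y⌋₊) → G x = G y) (hS : ∑ n ∈ S, w n ≤ 1)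
    (hgrid : ∀ n ∈ S, 1 ≤ (b - a) * a ^ (κ * e n) ∧ ∀ u v : ℝ, a ≤ u → v ≤ b → v - u = ll a b κ (e n) →
      volume.real (Set.Ioc u v ∩ AA ξ (e n) (P n)) ≤ β * (v - u))
    (hρ : ∀ n ∈ S, (∑ m ∈ past, ξ * b ^ (e m)) * M * a ^ (-(κ * e n)) ≤ ρ) (hρ0 : 0 ≤ ρ) :
    ∫ x in a..b, G x * Real.exp (t * WW ξ e w P S x) ≤
      (1 + (Real.exp t - 1) * (β * ∑ n ∈ S, w n)) * (∫ x in a..b, G x) + (Real.exp t - 1) * ρ := by
  have hM0 : 0 ≤ M := (hG0 0).trans (hGM 0)
  have ht1 : 0 ≤ Real.exp t - 1 := by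
    have := Real.add_one_le_exp t
    linarith
  have ha0 : 0 < a := by linarith
  have hW0 : ∀ x, 0 ≤ WW ξ e w P S x := WW_nonneg hw S
  have hW1 : ∀ x, WW ξ e w P S x ≤ 1 := fun x => (WW_le hw S x).trans hS
  have hGi : IntervalIntegrable G volume a b :=
    ii_of_bdd (M := M) hG (fun x => by rw [abs_of_nonneg (hG0 x)]; exact hGM x) _ _
  have hHi : ∀ n, IntervalIntegrable (fun x => G x * (AA ξ (e n) (P n)).indicator (fun _ => (1 : ℝ)) x) volume a b := by
    intro n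
    have hm : Measurable (fun x => G x * (AA ξ (e n) (P n)).indicator (fun _ => (1 : ℝ)) x) :=
      hG.mul (measurable_const.indicator (AA_measurable _ _ _))
    refine ii_of_bdd (M := M) hm (fun x => ?_) _ _
    rw [abs_mul, abs_of_nonneg (hG0 x)]
    have h1 : |(AA ξ (e n) (P n)).indicator (fun _ => (1 : ℝ)) x| ≤ 1 := by
      rw [abs_of_nonneg (indicator_nonneg (fun _ _ => zero_le_one) x)]
      exact indicator_le_self' (fun _ _ => zero_le_one) x
    calc G x * _ ≤ M * 1 := mul_le_mul (hGM x) h1 (abs_nonneg _) hM0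
      _ = M := mul_one _
  -- the individual steps
  have hone : ∀ n ∈ S, ∫ x in a..b, G x * (AA ξ (e n) (P n)).indicator (fun _ => (1 : ℝ)) x ≤
      β * (∫ x in a..b, G x) + ρ := by
    intro n hn
    obtain ⟨h1, h2⟩ := hgrid n hn
    obtain ⟨hk, -, hl⟩ := ll_bounds ha hab h1
    obtain ⟨k, hk'⟩ : ∃ k, k = kk a b κ (e n) := ⟨_, rfl⟩
    have hl' : ll a b κ (e n) = (b - a) / k := by rw [hk']; rfl
    rw [← hk'] at hk
    obtain ⟨Bd, hBd⟩ : ∃ Bd : Finset ℕ, Bd = past.biUnion (fun m => {i ∈ range k |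
      ⌊fx ξ (e m) (tt a b k i)⌋₊ ≠ ⌊fx ξ (e m) (tt a b k (i + 1))⌋₊}) := ⟨_, rfl⟩
    have hs := step hab hk hG hG0 hGM (AA_measurable ξ (e n) (P n)) hβ (fun i hi => by
      have h3 := h2 (tt a b k i) (tt a b k (i + 1)) (tt_ge hab k i) (tt_le hab hi) (by rw [tt_succ, hl'])
      rwa [tt_succ] at h3) Bd (fun i hi hiB => by
      refine ⟨G (tt a b k (i + 1)), fun x hx => hGc _ _ fun m hm => ?_⟩
      have h3 : ⌊fx ξ (e m) (tt a b k i)⌋₊ = ⌊fx ξ (e m) (tt a b k (i + 1))⌋₊ := by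
        by_contra hcon
        apply hiB
        rw [hBd, Finset.mem_biUnion]
        exact ⟨m, hm, Finset.mem_filter.2 ⟨Finset.mem_range.2 hi, hcon⟩⟩
      have hti : 0 ≤ tt a b k i := by linarith [tt_ge hab k i]
      have he0 : 0 ≤ e m := by linarith [he m]
      apply le_antisymm
      · exact Nat.floor_mono (fx_mono hξ he0 (hti.trans hx.1.le) hx.2)
      · rw [← h3]
        exact Nat.floor_mono (fx_mono hξ he0 hti hx.1.le))
    refine hs.trans ?_
    have hcard : (#Bd : ℝ) ≤ ∑ m ∈ past, ξ * b ^ (e m) := by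
      have h4 : #Bd ≤ ∑ m ∈ past, ⌊fx ξ (e m) b⌋₊ := by
        rw [hBd]
        refine Finset.card_biUnion_le.trans (Finset.sum_le_sum fun m _ => ?_)
        have h5 := changes (F := fun i => ⌊fx ξ (e m) (tt a b k i)⌋₊) (by
          intro i j hij
          refine Nat.floor_mono (fx_mono hξ (by linarith [he m]) (by linarith [tt_ge hab k i]) (tt_mono hab k hij))) k
        simp only [tt_last a b hk] at h5
        exact h5
      calc (#Bd : ℝ) ≤ ((∑ m ∈ past, ⌊fx ξ (e m) b⌋₊ : ℕ) : ℝ) := by exact_mod_cast h4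
        _ = ∑ m ∈ past, ((⌊fx ξ (e m) b⌋₊ : ℕ) : ℝ) := by push_cast; rfl
        _ ≤ ∑ m ∈ past, ξ * b ^ (e m) :=
            Finset.sum_le_sum fun m _ => Nat.floor_le (fx_nonneg hξ (by linarith))
    have h6 : (#Bd : ℝ) * M * ((b - a) / k) ≤ ρ := by
      refine le_trans ?_ (hρ n hn)
      rw [← hl']
      have h7 : 0 ≤ ll a b κ (e n) := by rw [hl']; exact div_nonneg (by linarith) (Nat.cast_nonneg k)
      exact mul_le_mul (mul_le_mul_of_nonneg_right hcard hM0) hl h7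
        (mul_nonneg ((Nat.cast_nonneg _).trans hcard) hM0)
    linarith
  have hpt : ∀ x, G x * Real.exp (t * WW ξ e w P S x) ≤ G x + (Real.exp t - 1) *
      ∑ n ∈ S, w n * (G x * (AA ξ (e n) (P n)).indicator (fun _ => (1 : ℝ)) x) := by
    intro x
    have h1 := mul_le_mul_of_nonneg_left (exp_convex (t := t) (hW0 x) (hW1 x)) (hG0 x)
    refine h1.trans (le_of_eq ?_)
    unfold WW
    rw [mul_add, mul_one, Finset.mul_sum, Finset.mul_sum, Finset.mul_sum]
    congr 1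
    exact Finset.sum_congr rfl fun n _ => by ring
  have hI1 : IntervalIntegrable (fun x => G x * Real.exp (t * WW ξ e w P S x)) volume a b := by
    have hm : Measurable (fun x => G x * Real.exp (t * WW ξ e w P S x)) :=
      hG.mul ((measurable_const.mul (WW_measurable S)).exp)
    refine ii_of_bdd (M := M * Real.exp t) hm (fun x => ?_) _ _
    rw [abs_of_nonneg (mul_nonneg (hG0 x) (Real.exp_pos _).le)]
    refine mul_le_mul (hGM x) (Real.exp_le_exp.2 ?_) (Real.exp_pos _).le hM0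
    calc t * _ ≤ t * 1 := mul_le_mul_of_nonneg_left (hW1 x) ht
      _ = t := mul_one t
  have hI3 : IntervalIntegrable (fun x => ∑ n ∈ S, w n * (G x * (AA ξ (e n) (P n)).indicator (fun _ => (1 : ℝ)) x))
      volume a b := by
    have h0 := IntervalIntegrable.sum S (f := fun n x => w n * (G x * (AA ξ (e n) (P n)).indicator (fun _ => (1 : ℝ)) x))
      (fun n _ => (hHi n).const_mul (w n))
    have h1 : (fun x => ∑ n ∈ S, w n * (G x * (AA ξ (e n) (P n)).indicator (fun _ => (1 : ℝ)) x)) =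
        ∑ n ∈ S, fun x => w n * (G x * (AA ξ (e n) (P n)).indicator (fun _ => (1 : ℝ)) x) := by
      ext x
      rw [Finset.sum_apply]
    rw [h1]
    exact h0
  have hI2 : IntervalIntegrable (fun x => G x + (Real.exp t - 1) *
      ∑ n ∈ S, w n * (G x * (AA ξ (e n) (P n)).indicator (fun _ => (1 : ℝ)) x)) volume a b :=
    hGi.add (hI3.const_mul _)
  have h1 := intervalIntegral.integral_mono_on hab.le hI1 hI2 (fun x _ => hpt x)
  refine h1.trans ?_
  rw [intervalIntegral.integral_add hGi (hI3.const_mul _), intervalIntegral.integral_const_mul,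
    intervalIntegral.integral_finsetSum (fun n _ => (hHi n).const_mul (w n))]
  have h2 : ∑ n ∈ S, ∫ x in a..b, w n * (G x * (AA ξ (e n) (P n)).indicator (fun _ => (1 : ℝ)) x) ≤
      β * (∑ n ∈ S, w n) * (∫ x in a..b, G x) + ρ := by
    calc _ ≤ ∑ n ∈ S, w n * (β * (∫ x in a..b, G x) + ρ) := by
          refine Finset.sum_le_sum fun n hn => ?_
          rw [intervalIntegral.integral_const_mul]
          exact mul_le_mul_of_nonneg_left (hone n hn) (hw n)
      _ = (∑ n ∈ S, w n) * (β * (∫ x in a..b, G x)) + (∑ n ∈ S, w n) * ρ := by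
          rw [← Finset.sum_mul]
          ring
      _ ≤ (∑ n ∈ S, w n) * (β * (∫ x in a..b, G x)) + 1 * ρ := by
          have := mul_le_mul_of_nonneg_right hS hρ0
          linarith
      _ = _ := by ring
  have h3 := mul_le_mul_of_nonneg_left h2 ht1
  linarith

end Pool.Agent.L7h6.PL
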