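import Pool.Agent.L7h6.PL.Cell

/-!
# Positive density along the powers of almost every real number (helper6), part 2: the grid

For large `e` the interval `[a, b]` is divided into `kk a b κ e` cells of length about `a ^ (- κ e)`, `κ = (1 - θ) / 2`; in
every cell the proportion of the `α` with `⌊ξ α ^ e⌋ ∈ P` is at most `β + ε`, if `P` has density at most `β` in the windows
`(X, X + Y]`, `X ^ θ ≤ Y ≤ X`.
-/

set_option autoImplicit false

namespace Pool.Agent.L7h6.PL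

open MeasureTheory Set Finset Filter

/-- the number of the cells -/
noncomputable def kk (a b κ e : ℝ) : ℕ := ⌈(b - a) * a ^ (κ * e)⌉₊

/-- the length of the cells -/
noncomputable def ll (a b κ e : ℝ) : ℝ := (b - a) / kk a b κ e

lemma ev_base {c : ℝ} (hc : 1 < c) (M : ℝ) : ∀ᶠ e : ℝ in atTop, M ≤ c ^ e :=
  (tendsto_rpow_atTop_of_base_gt_one c hc).eventually_ge_atTop M

lemma ev_small {a κ τ : ℝ} (ha : 1 < a) (hκ : 0 < κ) (hτ : 0 < τ) : ∀ᶠ e : ℝ in atTop, e * a ^ (-(κ * e)) ≤ τ := by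
  have hs : 0 < κ * Real.log a := mul_pos hκ (Real.log_pos ha)
  obtain ⟨s, hs'⟩ : ∃ s, s = κ * Real.log a := ⟨_, rfl⟩
  rw [← hs'] at hs
  filter_upwards [eventually_ge_atTop (2 / (s ^ 2 * τ)), eventually_gt_atTop 0] with e he he0
  have h1 : a ^ (-(κ * e)) = Real.exp (-(s * e)) := by
    rw [Real.rpow_def_of_pos (by linarith), hs']
    ring_nf
  have h2 := Real.quadratic_le_exp_of_nonneg (x := s * e) (by positivity)
  have h3 : 0 < Real.exp (s * e) := Real.exp_pos _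
  rw [h1, Real.exp_neg, ← div_eq_mul_inv, div_le_iff₀ h3]
  have h4 : 2 ≤ e * (s ^ 2 * τ) := by
    rwa [div_le_iff₀ (by positivity)] at he
  have h5 : 0 < s * e := by positivity
  have h6 : (s * e) ^ 2 / 2 ≤ Real.exp (s * e) := by linarith
  have h7 : e ≤ τ * ((s * e) ^ 2 / 2) := by nlinarith
  nlinarith

lemma ll_bounds {a b κ e : ℝ} (ha : 1 < a) (hab : a < b) (h : 1 ≤ (b - a) * a ^ (κ * e)) :
    0 < kk a b κ e ∧ a ^ (-(κ * e)) / 2 ≤ ll a b κ e ∧ ll a b κ e ≤ a ^ (-(κ * e)) := by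
  have h1 : (b - a) * a ^ (κ * e) ≤ (kk a b κ e : ℝ) := Nat.le_ceil _
  have h2 : (kk a b κ e : ℝ) < (b - a) * a ^ (κ * e) + 1 := Nat.ceil_lt_add_one (by linarith)
  have hk : (0 : ℝ) < (kk a b κ e : ℝ) := by linarith
  have hpos : 0 < a ^ (κ * e) := Real.rpow_pos_of_pos (by linarith) _
  have hneg : a ^ (-(κ * e)) = (a ^ (κ * e))⁻¹ := Real.rpow_neg (by linarith) _
  refine ⟨by exact_mod_cast hk, ?_, ?_⟩
  · unfold ll
    rw [hneg, le_div_iff₀ hk, inv_eq_one_div, div_div, div_mul_eq_mul_div, one_mul, div_le_iff₀ (by positivity)]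
    nlinarith
  · unfold ll
    rw [hneg, div_le_iff₀ hk, ← div_eq_inv_mul, le_div_iff₀ hpos]
    linarith

/-- the bound for the density in windows -/
def Win (P : Set ℕ) (θ β A B : ℝ) : Prop :=
  ∀ X Y : ℕ, A ≤ (X : ℝ) → (X : ℝ) ≤ B → (X : ℝ) ^ θ ≤ Y → Y ≤ X →
    ({m : ℕ | X < m ∧ m ≤ X + Y ∧ m ∈ P}.ncard : ℝ) ≤ β * Y

open Classical in
lemma Win.card {P : Set ℕ} {θ β A B : ℝ} (h : Win P θ β A B) (X Y : ℕ) (h1 : A ≤ (X : ℝ)) (h2 : (X : ℝ) ≤ B)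
    (h3 : (X : ℝ) ^ θ ≤ Y) (h4 : Y ≤ X) : (#{m ∈ Finset.Ioc X (X + Y) | m ∈ P} : ℝ) ≤ β * Y := by
  refine le_trans (le_of_eq ?_) (h X Y h1 h2 h3 h4)
  rw [← Set.ncard_coe_finset]
  congr 2
  ext m
  simp only [coe_filter, Finset.mem_Ioc, Set.mem_ofPred_eq]
  tauto

open Classical in
/-- **The proportion in every cell.** -/
theorem grid {a b θ ξ β ε : ℝ} (ha : 1 < a) (hab : a < b) (hθ0 : 0 < θ) (hθ1 : θ < 1) (hξ : 0 < ξ) (hβ : 0 ≤ β)
    (hε : 0 < ε) : ∀ᶠ e : ℝ in atTop, 1 ≤ (b - a) * a ^ ((1 - θ) / 2 * e) ∧ ∀ P : Set ℕ,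
      Win P θ β (√a ^ e) ((b + 1) ^ e) → ∀ u v : ℝ, a ≤ u → v ≤ b → v - u = ll a b ((1 - θ) / 2) e →
        volume.real (Set.Ioc u v ∩ AA ξ e P) ≤ (β + ε) * (v - u) := by
  obtain ⟨κ, hκ⟩ : ∃ κ, κ = (1 - θ) / 2 := ⟨_, rfl⟩
  rw [← hκ]
  have hκ0 : 0 < κ := by rw [hκ]; linarith
  have hκ1 : κ < 1 := by rw [hκ]; linarith
  have hθκ : θ = 1 - 2 * κ := by rw [hκ]; ring
  have ha0 : 0 < a := by linarith
  have hb0 : 0 < b := by linarith
  have hsa : 1 < √a := by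
    rw [Real.lt_sqrt (by norm_num)]
    linarith
  obtain ⟨ε₁, hε₁⟩ : ∃ ε₁, ε₁ = min (ε / (2 * (β + 1))) 1 := ⟨_, rfl⟩
  have hε₁0 : 0 < ε₁ := by rw [hε₁]; exact lt_min (by positivity) one_pos
  have hε₁1 : ε₁ ≤ 1 := by rw [hε₁]; exact min_le_right _ _
  have hε₁2 : β * ε₁ ≤ ε / 2 := by
    have h1 : ε₁ ≤ ε / (2 * (β + 1)) := by rw [hε₁]; exact min_le_left _ _
    rw [le_div_iff₀ (by positivity)] at h1
    nlinarith
  have haκ : 1 < a ^ κ := Real.one_lt_rpow ha hκ0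
  have haκ2 : 1 < a ^ (1 - κ) := Real.one_lt_rpow ha (by linarith)
  have hbb : 1 < (b + 1) / b := by rw [lt_div_iff₀ hb0]; linarith
  have hlog : 0 < Real.log (1 + ε₁) := Real.log_pos (by linarith)
  filter_upwards [ev_base haκ (1 / (b - a)), ev_small ha hκ0 (show 0 < min (1 / 4) (Real.log (1 + ε₁)) from
      lt_min (by norm_num) hlog), ev_base haκ2 ((4 * β / ε + 1) * (2 * b / ξ)), ev_base haκ (2 * b / ξ ^ (1 - θ)),
      ev_base ha (8 / ξ), ev_base hsa (2 / ξ), ev_base hbb ξ, eventually_ge_atTop 1] with e c1 c2 c3 c4 c5 c6 c7 he1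
  have hba : 0 < b - a := by linarith
  have e1 : ∀ x : ℝ, (a ^ x) ^ e = a ^ (x * e) := fun x => (Real.rpow_mul ha0.le x e).symm
  rw [e1, div_le_iff₀ hba, mul_comm] at c1
  rw [e1] at c3 c4
  rw [div_le_iff₀ (Real.rpow_pos_of_pos hξ _)] at c4
  rw [div_le_iff₀ hξ] at c5 c6
  rw [Real.div_rpow (by linarith) hb0.le, le_div_iff₀ (Real.rpow_pos_of_pos hb0 _)] at c7
  refine ⟨c1, fun P hP u v hu hv huv => ?_⟩
  obtain ⟨hk, hl1, hl2⟩ := ll_bounds ha hab c1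
  obtain ⟨ℓ, hℓ⟩ : ∃ ℓ, ℓ = ll a b κ e := ⟨_, rfl⟩
  rw [← hℓ] at hl1 hl2 huv
  rw [huv]
  have hneg0 : 0 < a ^ (-(κ * e)) := Real.rpow_pos_of_pos ha0 _
  have hℓ0 : 0 < ℓ := by linarith
  have hu0 : 0 < u := by linarith
  have hv0 : 0 < v := by linarith
  have huv' : u ≤ v := by linarith
  have hu1 : 1 ≤ u := by linarith
  have c2a : e * a ^ (-(κ * e)) ≤ 1 / 4 := c2.trans (min_le_left _ _)
  have c2b : e * a ^ (-(κ * e)) ≤ Real.log (1 + ε₁) := c2.trans (min_le_right _ _)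
  have heℓ : e * ℓ ≤ e * a ^ (-(κ * e)) := mul_le_mul_of_nonneg_left hl2 (by linarith)
  -- distortion
  have hue : 0 < u ^ (e - 1) := Real.rpow_pos_of_pos hu0 _
  have hdist : v ^ (e - 1) ≤ (1 + ε₁) * u ^ (e - 1) := by
    have h1 : v / u ≤ Real.exp (ℓ / u) := by
      have h2 : v / u = ℓ / u + 1 := by
        have : v = u + ℓ := by linarith
        rw [this]
        field_simp
        ring
      rw [h2]
      exact Real.add_one_le_exp _
    have h3 : (v / u) ^ (e - 1) ≤ Real.exp (ℓ / u) ^ (e - 1) :=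
      Real.rpow_le_rpow (by positivity) h1 (by linarith)
    rw [← Real.exp_mul] at h3
    have h4 : ℓ / u * (e - 1) ≤ Real.log (1 + ε₁) := by
      have h5 : ℓ / u ≤ ℓ := div_le_self hℓ0.le hu1
      have h6 : ℓ / u * (e - 1) ≤ ℓ * e := mul_le_mul h5 (by linarith) (by linarith) hℓ0.le
      linarith
    have h7 : Real.exp (ℓ / u * (e - 1)) ≤ 1 + ε₁ := by
      rw [← Real.exp_log (show (0 : ℝ) < 1 + ε₁ by linarith)]
      exact Real.exp_le_exp.2 h4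
    have h8 := h3.trans h7
    rwa [Real.div_rpow hv0.le hu0.le, div_le_iff₀ hue] at h8
  obtain ⟨D0, hD0⟩ : ∃ D0, D0 = ξ * (e * u ^ (e - 1)) := ⟨_, rfl⟩
  obtain ⟨D1, hD1⟩ : ∃ D1, D1 = ξ * (e * v ^ (e - 1)) := ⟨_, rfl⟩
  have hD0p : 0 < D0 := by rw [hD0]; positivity
  have hD01 : D1 ≤ (1 + ε₁) * D0 := by
    rw [hD0, hD1]
    calc ξ * (e * v ^ (e - 1)) ≤ ξ * (e * ((1 + ε₁) * u ^ (e - 1))) := by gcongr
      _ = (1 + ε₁) * (ξ * (e * u ^ (e - 1))) := by ring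
  obtain ⟨F, hF⟩ : ∃ F, F = fx ξ e u := ⟨_, rfl⟩
  have hFe : F = ξ * u ^ e := hF
  have hlow : D0 * ℓ ≤ fx ξ e v - F := by
    have := fx_lower hξ he1 hu0 le_rfl huv'
    rw [huv] at this
    rw [hD0, hF]
    exact this
  have hupp : fx ξ e v - F ≤ D1 * ℓ := by
    have := fx_upper hξ he1 hu0 huv' le_rfl
    rw [huv] at this
    rw [hD1, hF]
    exact this
  have haue : a ^ e ≤ u ^ e := Real.rpow_le_rpow ha0.le hu (by linarith)
  have hF8 : 8 ≤ F := by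
    rw [hFe]
    nlinarith
  have hF0 : 0 < F := by linarith
  have huee : u ^ e = u ^ (e - 1) * u := by
    rw [← Real.rpow_add_one hu0.ne']
    ring_nf
  have hFD : F * e = D0 * u := by
    rw [hFe, hD0, huee]
    ring
  -- D0 ℓ is large compared with F ^ θ and with constants
  have hD0ℓ : F * (1 / (2 * b)) * a ^ (-(κ * e)) ≤ D0 * ℓ := by
    have h1 : D0 = F * e / u := by
      rw [hFD]
      field_simp
    have h2 : F * (1 / b) ≤ D0 := by
      rw [h1, mul_one_div, div_le_div_iff₀ hb0 hu0]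
      have h3 : u ≤ b := by linarith
      calc F * u ≤ F * b := mul_le_mul_of_nonneg_left h3 hF0.le
        _ = F * 1 * b := by ring
        _ ≤ F * e * b := mul_le_mul_of_nonneg_right (mul_le_mul_of_nonneg_left he1 hF0.le) hb0.le
    calc F * (1 / (2 * b)) * a ^ (-(κ * e)) = (F * (1 / b)) * (a ^ (-(κ * e)) / 2) := by
          field_simp
      _ ≤ D0 * ℓ := mul_le_mul h2 hl1 (by positivity) hD0p.le
  have hb1 : 4 * β / ε + 1 ≤ D0 * ℓ := by
    refine le_trans ?_ hD0ℓ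
    have h1 : ξ * a ^ e ≤ F := by
      rw [hFe]
      exact mul_le_mul_of_nonneg_left haue hξ.le
    have h2 : a ^ e * a ^ (-(κ * e)) = a ^ ((1 - κ) * e) := by
      rw [← Real.rpow_add ha0]
      ring_nf
    calc 4 * β / ε + 1 = (4 * β / ε + 1) * (2 * b / ξ) * (ξ / (2 * b)) := by field_simp
      _ ≤ a ^ ((1 - κ) * e) * (ξ / (2 * b)) := mul_le_mul_of_nonneg_right c3 (by positivity)
      _ = ξ * a ^ e * (1 / (2 * b)) * a ^ (-(κ * e)) := by rw [← h2]; ring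
      _ ≤ F * (1 / (2 * b)) * a ^ (-(κ * e)) := by gcongr
  have hFθ : F ^ θ ≤ D0 * ℓ := by
    refine le_trans ?_ hD0ℓ
    have h1 : F ^ (1 - θ) ≥ 2 * b * a ^ (κ * e) := by
      have h2 : (ξ * a ^ e) ^ (1 - θ) ≤ F ^ (1 - θ) := by
        apply Real.rpow_le_rpow (by positivity) _ (by linarith)
        rw [hFe]
        exact mul_le_mul_of_nonneg_left haue hξ.le
      have h3 : (ξ * a ^ e) ^ (1 - θ) = ξ ^ (1 - θ) * (a ^ (κ * e) * a ^ (κ * e)) := by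
        rw [Real.mul_rpow hξ.le (by positivity), ← Real.rpow_mul ha0.le, ← Real.rpow_add ha0]
        congr 2
        rw [hθκ]
        ring
      rw [h3] at h2
      have h4 : 0 < a ^ (κ * e) := Real.rpow_pos_of_pos ha0 _
      nlinarith
    have h5 : F ^ θ * F ^ (1 - θ) = F := by
      rw [← Real.rpow_add hF0]
      simp
    have h6 : 0 < F ^ θ := Real.rpow_pos_of_pos hF0 _
    have h7 : F ^ θ * (2 * b * a ^ (κ * e)) ≤ F := by
      calc F ^ θ * (2 * b * a ^ (κ * e)) ≤ F ^ θ * F ^ (1 - θ) := mul_le_mul_of_nonneg_left h1 h6.le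
        _ = F := h5
    have h8 : a ^ (κ * e) * a ^ (-(κ * e)) = 1 := by
      rw [← Real.rpow_add ha0]
      simp
    calc F ^ θ = F ^ θ * (2 * b * a ^ (κ * e)) * (1 / (2 * b)) * a ^ (-(κ * e)) := by
          have : F ^ θ * (2 * b * a ^ (κ * e)) * (1 / (2 * b)) * a ^ (-(κ * e)) =
              F ^ θ * (a ^ (κ * e) * a ^ (-(κ * e))) * (2 * b * (1 / (2 * b))) := by ring
          rw [this, h8, mul_one_div_cancel (by positivity)]
          ring
      _ ≤ F * (1 / (2 * b)) * a ^ (-(κ * e)) := by gcongr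
  have hD1ℓ : D1 * ℓ ≤ F / 2 := by
    have h1 : D0 * ℓ ≤ F * (e * ℓ) := by
      have h2 : D0 ≤ F * e := by
        rw [hFD]
        nlinarith
      calc D0 * ℓ ≤ F * e * ℓ := mul_le_mul_of_nonneg_right h2 hℓ0.le
        _ = F * (e * ℓ) := by ring
    have h3 : D1 * ℓ ≤ 2 * (D0 * ℓ) := by nlinarith
    have h4 : F * (e * ℓ) ≤ F * (1 / 4) := mul_le_mul_of_nonneg_left (heℓ.trans c2a) hF0.le
    linarith
  -- the window
  have hfu : ⌊F⌋₊ ≤ F := Nat.floor_le hF0.le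
  have hfu' : F < ⌊F⌋₊ + 1 := Nat.lt_floor_add_one F
  have hG0 : 0 ≤ fx ξ e v := fx_nonneg hξ hv0.le
  have hfv : ⌊fx ξ e v⌋₊ ≤ fx ξ e v := Nat.floor_le hG0
  have hfv' : fx ξ e v < ⌊fx ξ e v⌋₊ + 1 := Nat.lt_floor_add_one _
  have hmono : ⌊F⌋₊ ≤ ⌊fx ξ e v⌋₊ := by
    rw [hF]
    exact Nat.floor_mono (fx_mono hξ (by linarith) hu0.le huv')
  have hF7 : 7 ≤ ⌊F⌋₊ := Nat.le_floor (by push_cast; linarith)
  obtain ⟨X, hX⟩ : ∃ X : ℕ, ⌊F⌋₊ = X + 1 := ⟨⌊F⌋₊ - 1, by omega⟩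
  obtain ⟨Y, hY⟩ : ∃ Y : ℕ, ⌊fx ξ e v⌋₊ = X + Y := ⟨⌊fx ξ e v⌋₊ - X, by omega⟩
  have hXr : ((⌊F⌋₊ : ℕ) : ℝ) = X + 1 := by rw [hX]; push_cast; ring
  have hYr : ((⌊fx ξ e v⌋₊ : ℕ) : ℝ) = X + Y := by rw [hY]; push_cast; ring
  rw [hXr] at hfu hfu'
  rw [hYr] at hfv hfv'
  have hYl : D0 * ℓ ≤ Y := by linarith
  have hYu : (Y : ℝ) ≤ D1 * ℓ + 2 := by linarith
  have hXF : (X : ℝ) ≤ F := by linarith
  have hX0 : (0 : ℝ) ≤ X := Nat.cast_nonneg X
  have hcount := hP.card X Y (by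
      have h1 : √a ^ e * √a ^ e = a ^ e := by
        rw [← Real.mul_rpow (by positivity) (by positivity), Real.mul_self_sqrt ha0.le]
      have h2 : F / 2 ≤ X := by linarith
      have h3 : 0 < √a ^ e := Real.rpow_pos_of_pos (by linarith) _
      have h4 : √a ^ e ≤ F / 2 := by
        have h5 : ξ * (√a ^ e * √a ^ e) ≤ F := by
          rw [h1, hFe]
          exact mul_le_mul_of_nonneg_left haue hξ.le
        nlinarith
      linarith) (by
      refine hXF.trans (le_trans ?_ c7)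
      rw [hFe]
      exact mul_le_mul_of_nonneg_left (Real.rpow_le_rpow hu0.le (by linarith) (by linarith)) hξ.le) (by
      refine (Real.rpow_le_rpow hX0 hXF hθ0.le).trans (hFθ.trans hYl)) (by
      have h1 : (Y : ℝ) ≤ X := by linarith
      exact_mod_cast h1)
  have hcell := cell hξ he1 hu0 P X Y (by rw [← hF, hX]; omega) (by rw [hY]) (v := v)
  refine hcell.trans ?_
  rw [← hD0, mul_one_div, div_le_iff₀ hD0p]
  have h1 : β * Y ≤ β * (D1 * ℓ + 2) := mul_le_mul_of_nonneg_left hYu hβ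
  have h2 : β * (D1 * ℓ) ≤ β * ((1 + ε₁) * D0 * ℓ) :=
    mul_le_mul_of_nonneg_left (mul_le_mul_of_nonneg_right hD01 hℓ0.le) hβ
  have h3 : β * ((1 + ε₁) * D0 * ℓ) ≤ (β + ε / 2) * (D0 * ℓ) := by
    have h4 : β * ((1 + ε₁) * D0 * ℓ) = (β + β * ε₁) * (D0 * ℓ) := by ring
    rw [h4]
    exact mul_le_mul_of_nonneg_right (by linarith) (by positivity)
  have h5 : 2 * β ≤ ε / 2 * (D0 * ℓ) := by
    have h6 : ε / 2 * (4 * β / ε + 1) ≤ ε / 2 * (D0 * ℓ) := mul_le_mul_of_nonneg_left hb1 (by positivity)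
    have h7 : ε / 2 * (4 * β / ε + 1) = 2 * β + ε / 2 := by
      field_simp
      ring
    linarith
  calc (#{m ∈ Finset.Ioc X (X + Y) | m ∈ P} : ℝ) ≤ β * Y := hcount
    _ ≤ β * (D1 * ℓ) + 2 * β := by linarith
    _ ≤ (β + ε / 2) * (D0 * ℓ) + ε / 2 * (D0 * ℓ) := by linarith
    _ = (β + ε) * ℓ * D0 := by ring

end Pool.Agent.L7h6.PL
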